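import Pool.Agent.Helper5.AM.Poly

/-!
# Project AM, (11.3): the energy of smooth psh functions with fixed boundary values
-/

set_option autoImplicit false

namespace Pool.Agent.Helper5.AM

open MeasureTheory Set Filter Topology Polynomial
open Pool.Agent.Helper29.AM
open scoped ComplexOrder

variable {n : ℕ}

/-- `D(u) = det (u_{j k̄})` -/
noncomputable def Dm (u : V n → ℝ) (z : V n) : ℝ := dre (hess u z)

theorem D2_add_smul {u h : V n → ℝ} (hu : ContDiff ℝ 2 u) (hh : ContDiff ℝ 2 h) (s : ℝ)
    (z v w : V n) : D2 (fun y => u y + s * h y) z v w = D2 u z v w + s * D2 h z v w := by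
  have h1 : fderiv ℝ (fun y => u y + s * h y) = fun y => fderiv ℝ u y + s • fderiv ℝ h y := by
    funext y
    have hd1 := (hu.differentiable (by norm_num) y).hasFDerivAt
    have hd2 := (hh.differentiable (by norm_num) y).hasFDerivAt
    exact (hd1.add (hd2.const_mul s)).fderiv
  unfold D2
  rw [h1]
  have hd1 := ((hu.fderiv_right (m := 1) (by norm_num)).differentiable (by norm_num) z).hasFDerivAt
  have hd2 := ((hh.fderiv_right (m := 1) (by norm_num)).differentiable (by norm_num) z).hasFDerivAt
  have h2 : fderiv ℝ (fun y => fderiv ℝ u y + s • fderiv ℝ h y) z = _ :=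
    (hd1.add (hd2.const_smul s)).fderiv
  rw [h2]
  simp

theorem hess_add_smul {u h : V n → ℝ} (hu : ContDiff ℝ 2 u) (hh : ContDiff ℝ 2 h) (s : ℝ)
    (z : V n) : hess (fun y => u y + s * h y) z = hess u z + s • hess h z := by
  ext j k
  simp only [Matrix.add_apply, Matrix.smul_apply, Complex.real_smul]
  unfold hess
  simp only [D2_add_smul hu hh]
  push_cast
  ring

theorem lev_add_smul {u h : V n → ℝ} (hu : ContDiff ℝ 2 u) (hh : ContDiff ℝ 2 h) (s : ℝ)
    (z v : V n) : lev (fun y => u y + s * h y) z v = lev u z v + s * lev h z v := by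
  unfold lev
  simp only [D2_add_smul hu hh]
  ring

theorem continuous_hess {u : V n → ℝ} (hu : ContDiff ℝ (⊤ : ℕ∞) u) :
    Continuous fun z => hess u z :=
  continuous_matrix fun j k => (contDiff_hess hu j k).continuous

theorem continuous_dre {M : V n → Mat n} (hM : Continuous M) : Continuous fun z => dre (M z) :=
  Complex.continuous_re.comp hM.matrix_det

theorem continuous_Dm {u : V n → ℝ} (hu : ContDiff ℝ (⊤ : ℕ∞) u) : Continuous (Dm u) :=
  continuous_dre (continuous_hess hu)

theorem continuous_Lm {M K : V n → Mat n} (hM : Continuous M) (hK : Continuous K) :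
    Continuous fun z => Lm (M z) (K z) := by
  unfold Lm
  refine Complex.continuous_re.comp ?_
  refine continuous_finsetSum _ fun j _ => continuous_finsetSum _ fun k _ => ?_
  refine Continuous.mul ?_ (hK.matrix_elem j k)
  have : (fun z => cof (M z) j k) = fun z => (M z).adjugate k j := by
    funext z; exact cof_eq_adjugate _ _ _
  rw [this]
  exact hM.matrix_adjugate.matrix_elem k j

/-! ### Integrals of densities along lines -/

section Lines

variable {g : V n → ℝ} {M K : V n → Mat n}

theorem int_interp (hg : Continuous g) (hc : HasCompactSupport g) (hM : Continuous M)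
    (hK : Continuous K) (t : ℝ) :
    ∫ z, g z * dre (M z + t • K z) = ∑ i ∈ Finset.range (n + 1),
      (∫ z, g z * dre (M z + nd (n + 1) i • K z)) * (ell (n + 1) i).eval t := by
  have hi : ∀ s : ℝ, Integrable fun z => g z * dre (M z + s • K z) := fun s =>
    (hg.mul (continuous_dre (hM.add (hK.const_smul s)))).integrable_of_hasCompactSupport
      hc.mul_right
  have h1 : (fun z => g z * dre (M z + t • K z)) = fun z => ∑ i ∈ Finset.range (n + 1),
      (g z * dre (M z + nd (n + 1) i • K z)) * (ell (n + 1) i).eval t := by
    funext z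
    have h2 := (isPol_dre (M z) (K z)).interp t
    rw [h2, Finset.mul_sum]
    exact Finset.sum_congr rfl fun i _ => by ring
  rw [h1, integral_finsetSum _ fun i _ => (hi _).mul_const _]
  exact Finset.sum_congr rfl fun i _ => integral_mul_const _ _

theorem int_interp' (hg : Continuous g) (hc : HasCompactSupport g) (hM : Continuous M)
    (hK : Continuous K) (t : ℝ) :
    ∫ z, g z * Lm (M z + t • K z) (K z) = ∑ i ∈ Finset.range (n + 1),
      (∫ z, g z * dre (M z + nd (n + 1) i • K z)) * (derivative (ell (n + 1) i)).eval t := by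
  have hi : ∀ s : ℝ, Integrable fun z => g z * dre (M z + s • K z) := fun s =>
    (hg.mul (continuous_dre (hM.add (hK.const_smul s)))).integrable_of_hasCompactSupport
      hc.mul_right
  have h1 : (fun z => g z * Lm (M z + t • K z) (K z)) = fun z => ∑ i ∈ Finset.range (n + 1),
      (g z * dre (M z + nd (n + 1) i • K z)) * (derivative (ell (n + 1) i)).eval t := by
    funext z
    have h2 := (isPol_dre (M z) (K z)).hasDerivAt t
    have h3 := hasDerivAt_dre (M z) (K z) t
    rw [h3.unique h2, Finset.mul_sum]
    exact Finset.sum_congr rfl fun i _ => by ring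
  rw [h1, integral_finsetSum _ fun i _ => (hi _).mul_const _]
  exact Finset.sum_congr rfl fun i _ => integral_mul_const _ _

theorem isPol_int (hg : Continuous g) (hc : HasCompactSupport g) (hM : Continuous M)
    (hK : Continuous K) : IsPol (n + 1) fun t => ∫ z, g z * dre (M z + t • K z) :=
  isPol_of_interp (Nat.succ_pos n) _ fun t => int_interp hg hc hM hK t

theorem hasDerivAt_int (hg : Continuous g) (hc : HasCompactSupport g) (hM : Continuous M)
    (hK : Continuous K) (t : ℝ) :
    HasDerivAt (fun t => ∫ z, g z * dre (M z + t • K z))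
      (∫ z, g z * Lm (M z + t • K z) (K z)) t := by
  rw [int_interp' hg hc hM hK t]
  exact (isPol_int hg hc hM hK).hasDerivAt t

end Lines

/-! ### The energy -/

/-- the straight line from `v` to `w` -/
noncomputable def ln (v w : V n → ℝ) (t : ℝ) : V n → ℝ := fun y => v y + t * (w y - v y)

/-- the energy relative to `r` (quadrature of `∫₀¹ ∫ (v - r) D(r + s (v - r)) ds`) -/
noncomputable def En (r v : V n → ℝ) : ℝ := ∑ i ∈ Finset.range (n + 1),
  wt (n + 1) i * ∫ z, (v z - r z) * Dm (ln r v (nd (n + 1) i)) z

theorem IsPol.deriv_mul {N : ℕ} (hN : 0 < N) {f f' : ℝ → ℝ} (hf : IsPol N f)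
    (hd : ∀ s, HasDerivAt f (f' s) s) : IsPol N fun s => f s + s * f' s := by
  obtain ⟨p, hp, h⟩ := hf
  refine ⟨derivative (X * p), ?_, fun s => ?_⟩
  · have h1 : (X * p).natDegree ≤ N := by
      refine (Polynomial.natDegree_mul_le).trans ?_
      have := Polynomial.natDegree_X_le (R := ℝ)
      omega
    have h2 := Polynomial.natDegree_derivative_le (X * p)
    omega
  · have h3 : f' s = (derivative p).eval s := by
      have h4 : HasDerivAt f ((derivative p).eval s) s := by
        have : f = fun s => p.eval s := funext h
        rw [this]; exact p.hasDerivAt s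
      exact (hd s).unique h4
    show f s + s * f' s = _
    rw [h3, h s, Polynomial.derivative_mul, Polynomial.derivative_X]
    simp

theorem contDiff_ln {v w : V n → ℝ} (hv : ContDiff ℝ (⊤ : ℕ∞) v) (hw : ContDiff ℝ (⊤ : ℕ∞) w)
    (t : ℝ) : ContDiff ℝ (⊤ : ℕ∞) (ln v w t) :=
  hv.add (contDiff_const.mul (hw.sub hv))

theorem hess_ln {v w : V n → ℝ} (hv : ContDiff ℝ (⊤ : ℕ∞) v) (hw : ContDiff ℝ (⊤ : ℕ∞) w)
    (t : ℝ) (z : V n) : hess (ln v w t) z = hess v z + t • hess (fun y => w y - v y) z :=
  hess_add_smul (hv.of_le two_le_infty) ((hw.sub hv).of_le two_le_infty) t z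

section Var

variable {r a h : V n → ℝ}

/-- the key computation: derivative of the energy along `r + (a + t h)` -/
theorem key_deriv (hr : ContDiff ℝ (⊤ : ℕ∞) r) (ha : ContDiff ℝ (⊤ : ℕ∞) a)
    (hh : ContDiff ℝ (⊤ : ℕ∞) h) (hca : HasCompactSupport a) (hch : HasCompactSupport h) :
    (∀ t, HasDerivAt (fun t : ℝ => ∑ i ∈ Finset.range (n + 1), wt (n + 1) i *
      ∫ z, (a z + t * h z) * Dm (fun y => r y + nd (n + 1) i * (a y + t * h y)) z)
      (∫ z, h z * Dm (fun y => r y + (a y + t * h y)) z) t) ∧
    IsPol (n + 2) (fun t : ℝ => ∑ i ∈ Finset.range (n + 1), wt (n + 1) i *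
      ∫ z, (a z + t * h z) * Dm (fun y => r y + nd (n + 1) i * (a y + t * h y)) z) := by
  have hr2 := hr.of_le two_le_infty
  have ha2 := ha.of_le two_le_infty
  have hh2 := hh.of_le two_le_infty
  have hb : ∀ t : ℝ, ContDiff ℝ (⊤ : ℕ∞) fun y => a y + t * h y := fun t =>
    ha.add (contDiff_const.mul hh)
  have hcb : ∀ t : ℝ, HasCompactSupport fun y => a y + t * h y := fun t =>
    hca.add hch.mul_left
  -- the Hessians
  have eH : ∀ (x t : ℝ) (z : V n), hess (fun y => r y + x * (a y + t * h y)) z =
      (hess r z + x • hess a z) + t • (x • hess h z) := by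
    intro x t z
    rw [hess_add_smul hr2 ((hb t).of_le two_le_infty), hess_add_smul ha2 hh2, smul_add, smul_comm x t]
    abel
  have cM : ∀ x : ℝ, Continuous fun z => hess r z + x • hess a z := fun x =>
    (continuous_hess hr).add ((continuous_hess ha).const_smul x)
  have cK : ∀ x : ℝ, Continuous fun z => x • hess h z := fun x => (continuous_hess hh).const_smul x
  -- G_x(t)
  have eG : ∀ (x t : ℝ), ∫ z, (a z + t * h z) * Dm (fun y => r y + x * (a y + t * h y)) z =
      (∫ z, a z * dre ((hess r z + x • hess a z) + t • (x • hess h z))) +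
      t * ∫ z, h z * dre ((hess r z + x • hess a z) + t • (x • hess h z)) := by
    intro x t
    have hcont : Continuous fun z => dre ((hess r z + x • hess a z) + t • (x • hess h z)) :=
      continuous_dre ((cM x).add ((cK x).const_smul t))
    have i1 : Integrable fun z => a z * dre ((hess r z + x • hess a z) + t • (x • hess h z)) :=
      (ha.continuous.mul hcont).integrable_of_hasCompactSupport hca.mul_right
    have i2 : Integrable fun z => h z * dre ((hess r z + x • hess a z) + t • (x • hess h z)) :=
      (hh.continuous.mul hcont).integrable_of_hasCompactSupport hch.mul_right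
    rw [← integral_const_mul, ← integral_add i1 (i2.const_mul t)]
    refine integral_congr_ae (Eventually.of_forall fun z => ?_)
    show (a z + t * h z) * dre (hess (fun y => r y + x * (a y + t * h y)) z) = _
    rw [eH]; ring
  constructor
  · intro t
    -- derivative of G_x
    have hG : ∀ x : ℝ, HasDerivAt (fun t : ℝ => ∫ z, (a z + t * h z) *
        Dm (fun y => r y + x * (a y + t * h y)) z)
        ((∫ z, h z * Dm (fun y => r y + x * (a y + t * h y)) z) +
          x * ∫ z, h z * Lop (fun y => r y + x * (a y + t * h y)) (fun y => a y + t * h y) z) t := by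
      intro x
      have e1 : (fun t : ℝ => ∫ z, (a z + t * h z) *
        Dm (fun y => r y + x * (a y + t * h y)) z) = fun t =>
        (∫ z, a z * dre ((hess r z + x • hess a z) + t • (x • hess h z))) +
        t * ∫ z, h z * dre ((hess r z + x • hess a z) + t • (x • hess h z)) := by
        funext t; exact eG x t
      rw [e1]
      have d1 := hasDerivAt_int ha.continuous hca (cM x) (cK x) t
      have d2 := hasDerivAt_int hh.continuous hch (cM x) (cK x) t
      have d3 := d1.add ((hasDerivAt_id t).mul d2)
      refine d3.congr_deriv ?_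
      have hw : ContDiff ℝ (⊤ : ℕ∞) fun y => r y + x * (a y + t * h y) :=
        hr.add (contDiff_const.mul (hb t))
      have e2 : ∀ z, Lm ((hess r z + x • hess a z) + t • (x • hess h z)) (x • hess h z) =
          x * Lop (fun y => r y + x * (a y + t * h y)) h z := by
        intro z
        rw [Lm_smul, Lop_eq_Lm, eH]
      simp only [e2, id, one_mul]
      have e3 : ∫ z, h z * Dm (fun y => r y + x * (a y + t * h y)) z =
          ∫ z, h z * dre ((hess r z + x • hess a z) + t • (x • hess h z)) := by
        refine integral_congr_ae (Eventually.of_forall fun z => ?_)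
        show h z * dre (hess (fun y => r y + x * (a y + t * h y)) z) = _
        rw [eH]
      rw [e3]
      have hs := ibp_symm hw hh (hb t) (Or.inl hch)
      rw [hs]
      have hcL : Continuous fun z => Lop (fun y => r y + x * (a y + t * h y)) h z :=
        continuous_Lm (continuous_hess hw) (continuous_hess hh)
      have i1 : Integrable fun z => a z * Lop (fun y => r y + x * (a y + t * h y)) h z :=
        (ha.continuous.mul hcL).integrable_of_hasCompactSupport hca.mul_right
      have i2 : Integrable fun z => h z * Lop (fun y => r y + x * (a y + t * h y)) h z :=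
        (hh.continuous.mul hcL).integrable_of_hasCompactSupport hch.mul_right
      have e4 : ∫ z, (a z + t * h z) * Lop (fun y => r y + x * (a y + t * h y)) h z =
          (∫ z, a z * Lop (fun y => r y + x * (a y + t * h y)) h z) +
          t * ∫ z, h z * Lop (fun y => r y + x * (a y + t * h y)) h z := by
        rw [← integral_const_mul, ← integral_add i1 (i2.const_mul t)]
        refine integral_congr_ae (Eventually.of_forall fun z => ?_)
        show _ = _
        ring
      rw [e4]
      have e5 : ∫ z, a z * (x * Lop (fun y => r y + x * (a y + t * h y)) h z) =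
          x * ∫ z, a z * Lop (fun y => r y + x * (a y + t * h y)) h z := by
        rw [← integral_const_mul]
        refine integral_congr_ae (Eventually.of_forall fun z => ?_)
        show _ = _
        ring
      have e6 : ∫ z, h z * (x * Lop (fun y => r y + x * (a y + t * h y)) h z) =
          x * ∫ z, h z * Lop (fun y => r y + x * (a y + t * h y)) h z := by
        rw [← integral_const_mul]
        refine integral_congr_ae (Eventually.of_forall fun z => ?_)
        show _ = _
        ring
      rw [e5, e6]
      ring
    -- the function H(s) = s ∫ h D(r + s b)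
    set b : V n → ℝ := fun y => a y + t * h y with hbdef
    have hbs : ContDiff ℝ (⊤ : ℕ∞) b := hb t
    have eq1 : ∀ (s : ℝ) (z : V n), hess (fun y => r y + s * b y) z = hess r z + s • hess b z :=
      fun s z => hess_add_smul hr2 (hbs.of_le two_le_infty) s z
    have dq : ∀ s : ℝ, HasDerivAt (fun s : ℝ => ∫ z, h z * dre (hess r z + s • hess b z))
        (∫ z, h z * Lop (fun y => r y + s * b y) b z) s := by
      intro s
      have d := hasDerivAt_int hh.continuous hch (continuous_hess hr) (continuous_hess hbs) s
      refine d.congr_deriv ?_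
      refine integral_congr_ae (Eventually.of_forall fun z => ?_)
      show h z * Lm (hess r z + s • hess b z) (hess b z) = h z * Lm (hess _ z) (hess b z)
      rw [eq1]
    have pq := isPol_int hh.continuous hch (continuous_hess hr) (continuous_hess hbs)
    have pH := pq.deriv_mul (Nat.succ_pos n) dq
    have dH : ∀ s : ℝ, HasDerivAt (fun s : ℝ => s * ∫ z, h z * dre (hess r z + s • hess b z))
        ((∫ z, h z * dre (hess r z + s • hess b z)) +
          s * ∫ z, h z * Lop (fun y => r y + s * b y) b z) s := by
      intro s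
      refine ((hasDerivAt_id s).mul (dq s)).congr_deriv ?_
      simp
    have hq := quadrature_deriv pH dH
    have hsum : HasDerivAt (fun t : ℝ => ∑ i ∈ Finset.range (n + 1), wt (n + 1) i *
        ∫ z, (a z + t * h z) * Dm (fun y => r y + nd (n + 1) i * (a y + t * h y)) z)
        (∑ i ∈ Finset.range (n + 1), wt (n + 1) i *
          ((∫ z, h z * Dm (fun y => r y + nd (n + 1) i * b y) z) +
          nd (n + 1) i * ∫ z, h z * Lop (fun y => r y + nd (n + 1) i * b y) b z)) t :=
      HasDerivAt.fun_sum fun i _ => (hG (nd (n + 1) i)).const_mul _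
    refine hsum.congr_deriv ?_
    have e7 : ∀ s : ℝ, ∫ z, h z * Dm (fun y => r y + s * b y) z =
        ∫ z, h z * dre (hess r z + s • hess b z) := by
      intro s
      refine integral_congr_ae (Eventually.of_forall fun z => ?_)
      show h z * dre (hess (fun y => r y + s * b y) z) = _
      rw [eq1]
    have e8 : ∫ z, h z * Dm (fun y => r y + (a y + t * h y)) z =
        ∫ z, h z * dre (hess r z + (1 : ℝ) • hess b z) := by
      rw [← e7 1]
      refine integral_congr_ae (Eventually.of_forall fun z => ?_)
      simp [hbdef]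
    rw [e8]
    simp only [e7]
    rw [hq]
    simp
  · refine IsPol.sum (by omega) _ fun i _ => ?_
    refine IsPol.const_mul ?_ _
    have e1 : (fun t : ℝ => ∫ z, (a z + t * h z) *
        Dm (fun y => r y + nd (n + 1) i * (a y + t * h y)) z) = fun t =>
        (∫ z, a z * dre ((hess r z + nd (n + 1) i • hess a z) + t • (nd (n + 1) i • hess h z))) +
        t * ∫ z, h z * dre ((hess r z + nd (n + 1) i • hess a z) + t • (nd (n + 1) i • hess h z)) := by
      funext t; exact eG _ t
    rw [e1]
    exact ((isPol_int ha.continuous hca (cM _) (cK _)).mono (Nat.le_succ _)).add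
      (isPol_int hh.continuous hch (cM _) (cK _)).id_mul

end Var

section Main

variable {r v w : V n → ℝ}

theorem En_ln (r v w : V n → ℝ) (t : ℝ) : En r (ln v w t) =
    ∑ i ∈ Finset.range (n + 1), wt (n + 1) i *
      ∫ z, ((v z - r z) + t * (w z - v z)) *
        Dm (fun y => r y + nd (n + 1) i * ((v y - r y) + t * (w y - v y))) z := by
  unfold En
  refine Finset.sum_congr rfl fun i _ => ?_
  congr 1
  refine integral_congr_ae (Eventually.of_forall fun z => ?_)
  have e1 : ln r (ln v w t) (nd (n + 1) i) =
      fun y => r y + nd (n + 1) i * ((v y - r y) + t * (w y - v y)) := by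
    funext y; unfold ln; ring
  show (ln v w t z - r z) * Dm (ln r (ln v w t) (nd (n + 1) i)) z = _
  have e2 : ln v w t z - r z = (v z - r z) + t * (w z - v z) := by unfold ln; ring
  rw [e1, e2]

/-- (11.3): derivative of the energy along a segment -/
theorem En_hasDerivAt (hr : ContDiff ℝ (⊤ : ℕ∞) r) (hv : ContDiff ℝ (⊤ : ℕ∞) v)
    (hw : ContDiff ℝ (⊤ : ℕ∞) w) (hcv : HasCompactSupport fun z => v z - r z)
    (hcw : HasCompactSupport fun z => w z - v z) (t : ℝ) :
    HasDerivAt (fun t => En r (ln v w t)) (∫ z, (w z - v z) * Dm (ln v w t) z) t := by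
  have h := (key_deriv hr (hv.sub hr) (hw.sub hv) hcv hcw).1 t
  have e1 : (fun t => En r (ln v w t)) = fun t : ℝ => ∑ i ∈ Finset.range (n + 1), wt (n + 1) i *
      ∫ z, ((v z - r z) + t * (w z - v z)) *
        Dm (fun y => r y + nd (n + 1) i * ((v y - r y) + t * (w y - v y))) z := by
    funext t; exact En_ln r v w t
  rw [e1]
  refine h.congr_deriv ?_
  refine integral_congr_ae (Eventually.of_forall fun z => ?_)
  have e2 : (fun y => r y + ((v y - r y) + t * (w y - v y))) = ln v w t := by
    funext y; unfold ln; ring
  show (w z - v z) * Dm (fun y => r y + ((v y - r y) + t * (w y - v y))) z = _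
  rw [e2]

/-- (11.3): polynomial dependence -/
theorem En_isPol (hr : ContDiff ℝ (⊤ : ℕ∞) r) (hv : ContDiff ℝ (⊤ : ℕ∞) v)
    (hw : ContDiff ℝ (⊤ : ℕ∞) w) (hcv : HasCompactSupport fun z => v z - r z)
    (hcw : HasCompactSupport fun z => w z - v z) :
    IsPol (n + 2) (fun t => En r (ln v w t)) := by
  have h := (key_deriv hr (hv.sub hr) (hw.sub hv) hcv hcw).2
  have e1 : (fun t => En r (ln v w t)) = fun t : ℝ => ∑ i ∈ Finset.range (n + 1), wt (n + 1) i *
      ∫ z, ((v z - r z) + t * (w z - v z)) *
        Dm (fun y => r y + nd (n + 1) i * ((v y - r y) + t * (w y - v y))) z := by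
    funext t; exact En_ln r v w t
  rw [e1]; exact h

/-- (11.4): the first variation in terms of finitely many energies -/
theorem first_variation (hr : ContDiff ℝ (⊤ : ℕ∞) r) (hv : ContDiff ℝ (⊤ : ℕ∞) v)
    (hw : ContDiff ℝ (⊤ : ℕ∞) w) (hcv : HasCompactSupport fun z => v z - r z)
    (hcw : HasCompactSupport fun z => w z - v z) :
    ∫ z, (w z - v z) * Dm v z = ∑ i ∈ Finset.range (n + 2),
      En r (ln v w (nd (n + 2) i)) * (derivative (ell (n + 2) i)).eval 0 := by
  have h1 := En_hasDerivAt hr hv hw hcv hcw 0
  have h2 := (En_isPol hr hv hw hcv hcw).hasDerivAt 0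
  have h3 := h1.unique h2
  have e2 : ln v w 0 = v := by
    funext y; unfold ln; ring
  rw [e2] at h3
  exact h3

theorem En_self (r : V n → ℝ) : En r r = 0 := by
  unfold En
  simp

end Main

end Pool.Agent.Helper5.AM
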