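import Pool.Agent.Helper5.AM.Riesz

/-!
# Project AM, (11.5): the weights
-/

set_option autoImplicit false

namespace Pool.Agent.Helper5.AM

open MeasureTheory Set Filter Topology Polynomial
open Pool.Agent.Helper29.AM
open scoped ComplexOrder

variable {n : ℕ} {B : Set (V n)} {r : V n → ℝ}

theorem Dec.lim_ext {w : ℕ → V n → ℝ} {g : V n → ℝ} (hw : Dec B r w g) (z : V n) :
    Tendsto (fun k => w k z) atTop (𝓝 (ext B r g z)) := by
  unfold ext
  by_cases hz : z ∈ B
  · simp only [if_pos hz]; exact hw.lim z hz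
  · simp only [if_neg hz]
    have : (fun k => w k z) = fun _ => r z := by
      funext k; exact (hw.pp k).eq_of_notMem hz
    rw [this]; exact tendsto_const_nhds

theorem Dec.measurable_ext {w : ℕ → V n → ℝ} {g : V n → ℝ} (hw : Dec B r w g) :
    Measurable (ext B r g) :=
  measurable_of_tendsto_metrizable (fun k => (hw.pp k).smooth.continuous.measurable)
    (tendsto_pi_nhds.2 fun z => hw.lim_ext z)

/-- uniform bounds -/
theorem Dec.bound (hr : Ref r) {w : ℕ → V n → ℝ} {g : V n → ℝ}
    (hw : Dec B r w g) : ∃ C : ℝ, 0 ≤ C ∧ (∀ k z, |w k z - r z| ≤ C) ∧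
      (∀ z, |ext B r g z - r z| ≤ C) ∧ (∀ z, z ∉ B → ext B r g z - r z = 0) := by
  obtain ⟨C₁, hC₁⟩ := hw.low
  have h1 : Continuous fun z => w 0 z - r z := (hw.pp 0).smooth.continuous.sub hr.smooth.continuous
  obtain ⟨C₂, hC₂⟩ := h1.bounded_above_of_compact_support (hw.pp 0).cpt
  have h0 : ∀ z, z ∉ B → ext B r g z - r z = 0 := by
    intro z hz
    unfold ext
    simp only [if_neg hz, sub_self]
  have hk : ∀ k z, |w k z - r z| ≤ max (max C₁ C₂) 0 := by
    intro k z
    by_cases hz : z ∈ B
    · have h2 := hw.le k hz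
      have h3 := hC₁ z hz
      have h4 := hw.anti (Nat.zero_le k) z
      have h5 := (le_abs_self _).trans (hC₂ z)
      have h6 := (le_max_left C₁ C₂).trans (le_max_left _ (0:ℝ))
      have h7 := (le_max_right C₁ C₂).trans (le_max_left _ (0:ℝ))
      rw [abs_le]
      constructor
      · linarith
      · have h8 : w k z ≤ w 0 z := h4
        have h9 : w 0 z - r z ≤ C₂ := h5
        linarith
    · rw [(hw.pp k).eq_of_notMem hz, sub_self, abs_zero]
      exact le_max_right _ _
  refine ⟨max (max C₁ C₂) 0, le_max_right _ _, hk, fun z => ?_, h0⟩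
  exact le_of_tendsto ((hw.lim_ext z).sub_const (r z)).abs (Eventually.of_forall fun k => hk k z)

theorem integrable_of_bdd {m : Measure (V n)} [IsFiniteMeasureOnCompacts m]
    (hBb : Bornology.IsBounded B) {h : V n → ℝ} (hh : Measurable h) {C : ℝ}
    (hC : ∀ z, |h z| ≤ C) (h0 : ∀ z, z ∉ B → h z = 0) : Integrable h m := by
  have hK : IsCompact (closure B) := hBb.isCompact_closure
  have hfin : m (closure B) < ⊤ := hK.measure_lt_top
  have hi : IntegrableOn h (closure B) m := by
    refine Measure.integrableOn_of_bounded (M := C) hfin.ne hh.aestronglyMeasurable ?_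
    exact Eventually.of_forall fun z => by rw [Real.norm_eq_abs]; exact hC z
  rw [← integrable_indicator_iff isClosed_closure.measurableSet] at hi
  have : (closure B).indicator h = h := by
    funext z
    by_cases hz : z ∈ closure B
    · rw [indicator_of_mem hz]
    · rw [indicator_of_notMem hz, h0 z (fun h => hz (subset_closure h))]
  rwa [this] at hi

section Weights

variable {m : Measure (V n)} [IsFiniteMeasureOnCompacts m] {v w : ℕ → V n → ℝ} {f g : V n → ℝ}

/-- dominated convergence against `m` -/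
theorem tendsto_int_m (hBb : Bornology.IsBounded B) (hr : Ref r) (hw : Dec B r w g)
    {θ : V n → ℝ} (hθ : Continuous θ) {Cθ : ℝ} (hCθ : ∀ z, |θ z| ≤ Cθ) :
    Integrable (fun z => θ z * (ext B r g z - r z)) m ∧
    Tendsto (fun l => ∫ z, θ z * (w l z - r z) ∂m) atTop
      (𝓝 (∫ z, θ z * (ext B r g z - r z) ∂m)) := by
  obtain ⟨C, hC0, hC1, hC2, hC3⟩ := hw.bound hr
  have hCθ0 : 0 ≤ Cθ := (abs_nonneg _).trans (hCθ 0)
  have hK : IsCompact (closure B) := hBb.isCompact_closure
  have hbound : Integrable ((closure B).indicator fun _ => Cθ * C) m := by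
    rw [integrable_indicator_iff isClosed_closure.measurableSet]
    exact integrableOn_const hK.measure_lt_top.ne
  refine ⟨integrable_of_bdd hBb (hθ.measurable.mul (hw.measurable_ext.sub
    hr.smooth.continuous.measurable)) (C := Cθ * C) (fun z => ?_) (fun z hz => ?_), ?_⟩
  · rw [abs_mul]
    exact mul_le_mul (hCθ z) (hC2 z) (abs_nonneg _) hCθ0
  · rw [hC3 z hz, mul_zero]
  · refine tendsto_integral_of_dominated_convergence _ (fun l => ?_) hbound (fun l => ?_) ?_
    · exact (hθ.mul ((hw.pp l).smooth.continuous.sub hr.smooth.continuous)).aestronglyMeasurable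
    · refine Eventually.of_forall fun z => ?_
      by_cases hz : z ∈ closure B
      · rw [indicator_of_mem hz, Real.norm_eq_abs, abs_mul]
        exact mul_le_mul (hCθ z) (hC1 l z) (abs_nonneg _) hCθ0
      · rw [indicator_of_notMem hz, (hw.pp l).eq_of_notMem (fun h => hz (subset_closure h))]
        simp
    · exact Eventually.of_forall fun z => ((hw.lim_ext z).sub_const _).const_mul _

theorem upper_bound (hBb : Bornology.IsBounded B) (hr : Ref r) (hv : Dec B r v f)
    (hw : Dec B r w g)
    (hm : ∀ χ : V n → ℝ, Continuous χ → HasCompactSupport χ →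
      Tendsto (fun k => ∫ z, χ z * Dm (v k) z) atTop (𝓝 (∫ z, χ z ∂m)))
    {θ : V n → ℝ} (hθ : Continuous θ) {Cθ : ℝ} (hCθ : ∀ z, |θ z| ≤ Cθ) (hθ0 : ∀ z, 0 ≤ θ z)
    {ε : ℝ} (hε : 0 < ε) : ∀ᶠ k in atTop,
      ∫ z, θ z * (w k z - r z) * Dm (v k) z ≤ (∫ z, θ z * (ext B r g z - r z) ∂m) + ε := by
  have h1 := (tendsto_int_m (m := m) hBb hr hw hθ hCθ).2
  obtain ⟨l, hl⟩ := ((h1.eventually_lt_const (show (∫ z, θ z * (ext B r g z - r z) ∂m) <
    (∫ z, θ z * (ext B r g z - r z) ∂m) + ε / 2 by linarith))).exists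
  have hcl : Continuous fun z => θ z * (w l z - r z) :=
    hθ.mul ((hw.pp l).smooth.continuous.sub hr.smooth.continuous)
  have hcc : HasCompactSupport fun z => θ z * (w l z - r z) := (hw.pp l).cpt.mul_left
  have h2 := hm _ hcl hcc
  have h3 := h2.eventually_lt_const (show (∫ z, θ z * (w l z - r z) ∂m) <
    (∫ z, θ z * (ext B r g z - r z) ∂m) + ε by linarith)
  filter_upwards [h3, eventually_ge_atTop l] with k hk hkl
  refine le_trans ?_ hk.le
  refine integral_mono ?_ ?_ fun z => ?_
  · exact integrable_mul_Dm (hθ.mul ((hw.pp k).smooth.continuous.sub hr.smooth.continuous))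
      (hw.pp k).cpt.mul_left (hv.pp k).smooth
  · exact integrable_mul_Dm hcl hcc (hv.pp k).smooth
  · show θ z * (w k z - r z) * Dm (v k) z ≤ θ z * (w l z - r z) * Dm (v k) z
    refine mul_le_mul_of_nonneg_right (mul_le_mul_of_nonneg_left ?_ (hθ0 z)) ((hv.pp k).Dm_nonneg z)
    have := hw.anti hkl z
    have h4 : w k z ≤ w l z := this
    linarith

theorem tendsto_total (hBm : MeasurableSet B) (hBb : Bornology.IsBounded B) (hr : Ref r)
    (hv : Dec B r v f) (hw : Dec B r w g)
    (hm : ∀ χ : V n → ℝ, Continuous χ → HasCompactSupport χ →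
      Tendsto (fun k => ∫ z, χ z * Dm (v k) z) atTop (𝓝 (∫ z, χ z ∂m))) :
    Tendsto (fun k => ∫ z, (w k z - r z) * Dm (v k) z) atTop
      (𝓝 (∫ z, (ext B r g z - r z) ∂m)) := by
  have hJ := tendsto_JK hBm hBb hr hv hw
  have h1 := (tendsto_int_m (m := m) hBb hr hw (θ := fun _ => 1) continuous_const (Cθ := 1)
    (fun _ => by simp)).2
  simp only [one_mul] at h1
  have h2 : Tendsto (fun l => ∫ z, (w l z - r z) ∂m) atTop (𝓝 (JK B r f g)) := by
    rw [Metric.tendsto_atTop]
    intro ε hε
    have h3 := (Metric.tendsto_nhds.1 hJ) (ε / 2) (by linarith)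
    rw [prod_atTop_atTop_eq, eventually_atTop] at h3
    obtain ⟨⟨N₁, N₂⟩, hN⟩ := h3
    refine ⟨N₂, fun l hl => ?_⟩
    have h4 := hm _ ((hw.pp l).smooth.continuous.sub hr.smooth.continuous) (hw.pp l).cpt
    have h5 : Tendsto (fun k => dist (∫ z, (w l z - r z) * Dm (v k) z) (JK B r f g)) atTop
        (𝓝 (dist (∫ z, (w l z - r z) ∂m) (JK B r f g))) :=
      h4.dist tendsto_const_nhds
    have h6 : dist (∫ z, (w l z - r z) ∂m) (JK B r f g) ≤ ε / 2 := by
      refine le_of_tendsto h5 ?_
      filter_upwards [eventually_ge_atTop N₁] with k hk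
      exact (hN (k, l) ⟨hk, hl⟩).le
    linarith
  have h7 := tendsto_nhds_unique h1 h2
  rw [h7]
  exact hJ.comp (tendsto_id.prodMk tendsto_id)

/-- (11.5): weights -/
theorem tendsto_weights (hBm : MeasurableSet B) (hBb : Bornology.IsBounded B) (hr : Ref r)
    (hv : Dec B r v f) (hw : Dec B r w g)
    (hm : ∀ χ : V n → ℝ, Continuous χ → HasCompactSupport χ →
      Tendsto (fun k => ∫ z, χ z * Dm (v k) z) atTop (𝓝 (∫ z, χ z ∂m)))
    {χ : V n → ℝ} (hχ : Continuous χ) (hc : HasCompactSupport χ) :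
    Tendsto (fun k => ∫ z, χ z * w k z * Dm (v k) z) atTop (𝓝 (∫ z, χ z * ext B r g z ∂m)) := by
  obtain ⟨c, hcb⟩ := hχ.bounded_above_of_compact_support hc
  have hcb' : ∀ z, |χ z| ≤ c := fun z => by simpa using hcb z
  have hc0 : 0 ≤ c := (abs_nonneg _).trans (hcb' 0)
  have hT := tendsto_total hBm hBb hr hv hw hm
  set G := ext B r g with hG
  have i1 : ∀ k, Integrable fun z => (w k z - r z) * Dm (v k) z := fun k =>
    integrable_mul_Dm ((hw.pp k).smooth.continuous.sub hr.smooth.continuous)
      (hw.pp k).cpt (hv.pp k).smooth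
  have i2 : ∀ (θ : V n → ℝ), Continuous θ → ∀ k,
      Integrable fun z => θ z * (w k z - r z) * Dm (v k) z := fun θ hθ k =>
    integrable_mul_Dm (hθ.mul ((hw.pp k).smooth.continuous.sub hr.smooth.continuous))
      (hw.pp k).cpt.mul_left (hv.pp k).smooth
  -- integrals against m
  have j1 := (tendsto_int_m (m := m) hBb hr hw (θ := fun _ => 1) continuous_const (Cθ := 1)
    (fun _ => by simp)).1
  have j2 := (tendsto_int_m (m := m) hBb hr hw (θ := χ) hχ hcb').1
  simp only [one_mul] at j1
  set A := ∫ z, χ z * (G z - r z) ∂m with hA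
  set T := ∫ z, (G z - r z) ∂m with hTd
  have eA : ∀ s : ℝ, ∫ z, (c + s * χ z) * (G z - r z) ∂m = c * T + s * A := by
    intro s
    have : (fun z => (c + s * χ z) * (G z - r z)) = fun z =>
      c * (G z - r z) + s * (χ z * (G z - r z)) := by funext z; ring
    rw [this, integral_add (j1.const_mul c) (j2.const_mul s), integral_const_mul,
      integral_const_mul]
  have ea : ∀ (s : ℝ) (k : ℕ), ∫ z, (c + s * χ z) * (w k z - r z) * Dm (v k) z =
      c * (∫ z, (w k z - r z) * Dm (v k) z) + s * ∫ z, χ z * (w k z - r z) * Dm (v k) z := by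
    intro s k
    have : (fun z => (c + s * χ z) * (w k z - r z) * Dm (v k) z) = fun z =>
      c * ((w k z - r z) * Dm (v k) z) + s * (χ z * (w k z - r z) * Dm (v k) z) := by
      funext z; ring
    rw [this, integral_add ((i1 k).const_mul c) ((i2 χ hχ k).const_mul s), integral_const_mul,
      integral_const_mul]
  have hub : ∀ s : ℝ, |s| = 1 → ∀ ε > 0, ∀ᶠ k in atTop,
      c * (∫ z, (w k z - r z) * Dm (v k) z) + s * (∫ z, χ z * (w k z - r z) * Dm (v k) z) ≤
        c * T + s * A + ε := by
    intro s hs ε hε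
    have h1 := upper_bound hBb hr hv hw hm (θ := fun z => c + s * χ z)
      (continuous_const.add (continuous_const.mul hχ)) (Cθ := c + c) (fun z => ?_) (fun z => ?_) hε
    · filter_upwards [h1] with k hk
      rw [ea s k] at hk
      rw [eA s] at hk
      exact hk
    · refine (abs_add_le _ _).trans ?_
      rw [abs_mul, hs, one_mul, abs_of_nonneg hc0]
      linarith [hcb' z]
    · have h2 : |s * χ z| ≤ c := by rw [abs_mul, hs, one_mul]; exact hcb' z
      have := (abs_le.1 h2).1
      linarith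
  have hlim : Tendsto (fun k => ∫ z, χ z * (w k z - r z) * Dm (v k) z) atTop (𝓝 A) := by
    rw [Metric.tendsto_atTop]
    intro ε hε
    have e1 := hub 1 (by simp) (ε / 4) (by linarith)
    have e2 := hub (-1) (by simp) (ε / 4) (by linarith)
    have e3 := (Metric.tendsto_nhds.1 (hT.const_mul c)) (ε / 4) (by linarith)
    obtain ⟨N, hN⟩ := eventually_atTop.1 ((e1.and e2).and e3)
    refine ⟨N, fun k hk => ?_⟩
    obtain ⟨⟨h1, h2⟩, h3⟩ := hN k hk
    rw [Real.dist_eq] at h3 ⊢
    rw [abs_lt] at h3 ⊢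
    constructor <;> linarith [h3.1, h3.2]
  -- the part with r
  have hr1 := hm (fun z => χ z * r z) (hχ.mul hr.smooth.continuous) hc.mul_right
  have hsum := hlim.add hr1
  have k1 : ∀ k, Integrable fun z => χ z * r z * Dm (v k) z := fun k =>
    integrable_mul_Dm (hχ.mul hr.smooth.continuous) hc.mul_right (hv.pp k).smooth
  have k2 : Integrable (fun z => χ z * r z) m :=
    (hχ.mul hr.smooth.continuous).integrable_of_hasCompactSupport hc.mul_right
  have eR : A + ∫ z, χ z * r z ∂m = ∫ z, χ z * G z ∂m := by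
    rw [hA, ← integral_add j2 k2]
    refine integral_congr_ae (Eventually.of_forall fun z => ?_)
    show _ = _
    ring
  rw [eR] at hsum
  refine hsum.congr fun k => ?_
  rw [← integral_add (i2 χ hχ k) (k1 k)]
  refine integral_congr_ae (Eventually.of_forall fun z => ?_)
  show _ = _
  ring

end Weights

end Pool.Agent.Helper5.AM
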