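import Pool.Agent.Helper5.AM.Energy

/-!
# Project AM, (11.3)-(11.4): the class `PP`, mass, monotonicity of the energy, limits
-/

set_option autoImplicit false

namespace Pool.Agent.Helper5.AM

open MeasureTheory Set Filter Topology Polynomial
open Pool.Agent.Helper29.AM
open scoped ComplexOrder

variable {n : ℕ}

/-- Smooth psh functions on `ℂⁿ` that agree with `r` outside a compact subset of `B`. -/
structure PP (B : Set (V n)) (r v : V n → ℝ) : Prop where
  smooth : ContDiff ℝ (⊤ : ℕ∞) v
  psh : ∀ z w, 0 ≤ lev v z w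
  cpt : HasCompactSupport fun z => v z - r z
  sub : tsupport (fun z => v z - r z) ⊆ B

/-- the reference function: smooth and strictly psh -/
structure Ref (r : V n → ℝ) : Prop where
  smooth : ContDiff ℝ (⊤ : ℕ∞) r
  strict : ∃ c : ℝ, 0 < c ∧ ∀ z w, c * ‖w‖ ^ 2 ≤ lev r z w

theorem Ref.pp {B : Set (V n)} {r : V n → ℝ} (hr : Ref r) : PP B r r := by
  obtain ⟨c, hc, h⟩ := hr.strict
  refine ⟨hr.smooth, fun z w => le_trans (by positivity) (h z w), ?_, ?_⟩
  · simp only [sub_self]
    exact (HasCompactSupport.zero : HasCompactSupport (0 : V n → ℝ))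
  · simp only [sub_self]
    have : tsupport (fun _ : V n => (0 : ℝ)) = ∅ := tsupport_eq_empty_iff.2 rfl
    rw [this]; exact empty_subset _

section Basic

variable {B : Set (V n)} {r v w : V n → ℝ}

theorem PP.eq_of_notMem (hv : PP B r v) {z : V n} (hz : z ∉ B) : v z = r z := by
  have h := image_eq_zero_of_notMem_tsupport (fun h => hz (hv.sub h))
  linarith

theorem PP.mono {B' : Set (V n)} (hv : PP B r v) (h : B ⊆ B') : PP B' r v :=
  ⟨hv.smooth, hv.psh, hv.cpt, hv.sub.trans h⟩

theorem cpt_sub (hv : PP B r v) (hw : PP B r w) : HasCompactSupport fun z => w z - v z := by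
  have : (fun z => w z - v z) = fun z => (w z - r z) - (v z - r z) := by funext z; ring
  rw [this]
  exact hw.cpt.sub hv.cpt

theorem PP.Dm_nonneg (hv : PP B r v) (z : V n) : 0 ≤ Dm v z := by
  have h := (hess_posSemidef (hv.smooth.of_le two_le_infty) (hv.psh z)).det_nonneg
  exact (Complex.le_def.1 h).1

theorem lev_ln (hv : ContDiff ℝ (⊤ : ℕ∞) v) (hw : ContDiff ℝ (⊤ : ℕ∞) w) (t : ℝ) (z x : V n) :
    lev (ln v w t) z x = (1 - t) * lev v z x + t * lev w z x := by
  have e1 : lev (ln v w t) z x = lev v z x + t * lev (fun y => w y - v y) z x :=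
    lev_add_smul (hv.of_le two_le_infty) ((hw.sub hv).of_le two_le_infty) t z x
  have e2 : lev (fun y => w y - v y) z x = lev w z x + (-1) * lev v z x := by
    have : (fun y => w y - v y) = fun y => w y + (-1) * v y := by funext y; ring
    rw [this]
    exact lev_add_smul (hw.of_le two_le_infty) (hv.of_le two_le_infty) (-1) z x
  rw [e1, e2]; ring

theorem PP.ln (hv : PP B r v) (hw : PP B r w) {t : ℝ} (ht : t ∈ Icc (0 : ℝ) 1) :
    PP B r (ln v w t) := by
  have e1 : (fun z => Pool.Agent.Helper5.AM.ln v w t z - r z) =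
      fun z => (1 - t) * (v z - r z) + t * (w z - r z) := by
    funext z; unfold Pool.Agent.Helper5.AM.ln; ring
  refine ⟨contDiff_ln hv.smooth hw.smooth t, fun z x => ?_, ?_, ?_⟩
  · rw [lev_ln hv.smooth hw.smooth]
    have h1 := mul_nonneg (sub_nonneg.2 ht.2) (hv.psh z x)
    have h2 := mul_nonneg ht.1 (hw.psh z x)
    linarith
  · rw [e1]
    exact hv.cpt.mul_left.add hw.cpt.mul_left
  · rw [e1]
    refine (tsupport_add _ _).trans (union_subset ?_ ?_)
    · exact (tsupport_mul_subset_right).trans hv.sub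
    · exact (tsupport_mul_subset_right).trans hw.sub

end Basic

/-! ### Mass -/

theorem lev_eq_zero_of_const {f : V n → ℝ} {c : ℝ} {z : V n} (h : f =ᶠ[𝓝 z] fun _ => c) :
    hess f z = 0 := by
  have h1 : fderiv ℝ f =ᶠ[𝓝 z] fun _ => 0 := by
    have := h.fderiv (𝕜 := ℝ)
    filter_upwards [this] with y hy
    rw [hy]; simp
  have h2 : fderiv ℝ (fderiv ℝ f) z = 0 := by
    rw [h1.fderiv_eq]; simp
  ext j k
  unfold hess D2
  rw [h2]; simp

theorem hess_congr {f g : V n → ℝ} {z : V n} (h : f =ᶠ[𝓝 z] g) : hess f z = hess g z := by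
  have h1 : fderiv ℝ f =ᶠ[𝓝 z] fderiv ℝ g := h.fderiv
  have h2 : fderiv ℝ (fderiv ℝ f) z = fderiv ℝ (fderiv ℝ g) z := h1.fderiv_eq
  ext j k
  unfold hess D2
  rw [h2]

theorem Dm_congr {f g : V n → ℝ} {z : V n} (h : f =ᶠ[𝓝 z] g) : Dm f z = Dm g z := by
  unfold Dm; rw [hess_congr h]

theorem PP.Dm_eq {B : Set (V n)} {r v : V n → ℝ} (hv : PP B r v) {z : V n}
    (hz : z ∉ tsupport fun z => v z - r z) : Dm v z = Dm r z := by
  refine Dm_congr ?_
  have h := notMem_tsupport_iff_eventuallyEq.1 hz
  filter_upwards [h] with y hy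
  have : v y - r y = 0 := hy
  linarith

/-- total mass, global form -/
theorem PP.integral_sub_eq_zero {B : Set (V n)} {r v : V n → ℝ} (hr : ContDiff ℝ (⊤ : ℕ∞) r)
    (hv : PP B r v) : ∫ z, (Dm v z - Dm r z) = 0 := by
  set a : V n → ℝ := fun z => v z - r z with ha
  have has : ContDiff ℝ (⊤ : ℕ∞) a := hv.smooth.sub hr
  have hac : HasCompactSupport a := hv.cpt
  obtain ⟨R, hR⟩ := hac.isCompact.isBounded.subset_ball (0 : V n)
  have hR0 : 0 < max R 1 := lt_of_lt_of_le one_pos (le_max_right _ _)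
  let θ : ContDiffBump (0 : V n) := ⟨max R 1, max R 1 + 1, hR0, by linarith⟩
  have hθs : ContDiff ℝ (⊤ : ℕ∞) θ := θ.contDiff
  have hθc : HasCompactSupport θ := θ.hasCompactSupport
  have hθ1 : ∀ z ∈ Metric.ball (0 : V n) (max R 1), θ z = 1 := fun z hz =>
    θ.one_of_mem_closedBall (Metric.ball_subset_closedBall hz)
  have hsub : tsupport a ⊆ Metric.ball (0 : V n) (max R 1) :=
    hR.trans (Metric.ball_subset_ball (le_max_left _ _))
  -- the function t ↦ ∫ θ D(r + t a) is constant
  have hd : ∀ t : ℝ, HasDerivAt (fun t : ℝ => ∫ z, θ z * dre (hess r z + t • hess a z)) 0 t := by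
    intro t
    have d := hasDerivAt_int hθs.continuous hθc (continuous_hess hr) (continuous_hess has) t
    refine d.congr_deriv ?_
    have hw : ContDiff ℝ (⊤ : ℕ∞) fun y => r y + t * a y := hr.add (contDiff_const.mul has)
    have e1 : ∀ z, Lm (hess r z + t • hess a z) (hess a z) = Lop (fun y => r y + t * a y) a z := by
      intro z
      rw [Lop_eq_Lm, hess_add_smul (hr.of_le two_le_infty) (has.of_le two_le_infty)]
    simp only [e1]
    rw [ibp_symm hw hθs has (Or.inl hθc)]
    rw [← integral_zero (V n) ℝ (μ := volume)]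
    refine integral_congr_ae (Eventually.of_forall fun z => ?_)
    show a z * Lop (fun y => r y + t * a y) θ z = 0
    by_cases hz : z ∈ tsupport a
    · have h1 : (θ : V n → ℝ) =ᶠ[𝓝 z] fun _ => 1 := by
        filter_upwards [Metric.isOpen_ball.mem_nhds (hsub hz)] with y hy
        exact hθ1 y hy
      rw [Lop_eq_Lm, lev_eq_zero_of_const h1]
      unfold Lm; simp
    · rw [image_eq_zero_of_notMem_tsupport hz, zero_mul]
  have hconst : (∫ z, θ z * dre (hess r z + (1 : ℝ) • hess a z)) =
      ∫ z, θ z * dre (hess r z + (0 : ℝ) • hess a z) := by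
    have := is_const_of_deriv_eq_zero (f := fun t : ℝ => ∫ z, θ z * dre (hess r z + t • hess a z))
      (fun t => (hd t).differentiableAt) (fun t => (hd t).deriv) 1 0
    exact this
  have hv' : ∀ z, hess v z = hess r z + (1 : ℝ) • hess a z := by
    intro z
    rw [← hess_add_smul (hr.of_le two_le_infty) (has.of_le two_le_infty)]
    congr 1; funext y; simp [ha]
  have i1 : Integrable fun z => θ z * Dm v z :=
    (hθs.continuous.mul (continuous_Dm hv.smooth)).integrable_of_hasCompactSupport hθc.mul_right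
  have i2 : Integrable fun z => θ z * Dm r z :=
    (hθs.continuous.mul (continuous_Dm hr)).integrable_of_hasCompactSupport hθc.mul_right
  have e2 : ∫ z, (Dm v z - Dm r z) = ∫ z, (θ z * Dm v z - θ z * Dm r z) := by
    refine integral_congr_ae (Eventually.of_forall fun z => ?_)
    show Dm v z - Dm r z = θ z * Dm v z - θ z * Dm r z
    by_cases hz : z ∈ tsupport a
    · rw [hθ1 z (hsub hz)]; ring
    · rw [hv.Dm_eq hz]; ring
  rw [e2, integral_sub i1 i2, sub_eq_zero]
  have e3 : ∫ z, θ z * Dm v z = ∫ z, θ z * dre (hess r z + (1 : ℝ) • hess a z) := by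
    refine integral_congr_ae (Eventually.of_forall fun z => ?_)
    show θ z * dre (hess v z) = _
    rw [hv']
  have e4 : ∫ z, θ z * Dm r z = ∫ z, θ z * dre (hess r z + (0 : ℝ) • hess a z) := by
    refine integral_congr_ae (Eventually.of_forall fun z => ?_)
    show θ z * dre (hess r z) = _
    simp
  rw [e3, e4, hconst]

/-- total mass on `B` -/
theorem PP.mass {B : Set (V n)} (hBb : Bornology.IsBounded B)
    {r v : V n → ℝ} (hr : ContDiff ℝ (⊤ : ℕ∞) r) (hv : PP B r v) :
    ∫ z in B, Dm v z = ∫ z in B, Dm r z := by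
  have hint : ∀ f : V n → ℝ, Continuous f → IntegrableOn f B := fun f hf => by
    have hK : IsCompact (closure B) := hBb.isCompact_closure
    exact (hf.continuousOn.integrableOn_compact hK).mono_set subset_closure
  have i1 := hint _ (continuous_Dm hv.smooth)
  have i2 := hint _ (continuous_Dm hr)
  rw [← sub_eq_zero, ← integral_sub i1 i2, ← hv.integral_sub_eq_zero hr]
  refine setIntegral_eq_integral_of_forall_compl_eq_zero fun z hz => ?_
  rw [hv.Dm_eq (fun h => hz (hv.sub h)), sub_self]

end Pool.Agent.Helper5.AM
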