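import Pool.Agent.Helper29.AM.Defs

/-!
# Project AM, (11.1)-(11.2): cofactors of the complex Hessian, Wirtinger calculus
-/

set_option autoImplicit false

namespace Pool.Agent.Helper5.AM

open MeasureTheory Set Filter Topology
open Pool.Agent.Helper29.AM
open scoped ComplexOrder

variable {n : ℕ}

theorem two_le_infty : (2 : WithTop ℕ∞) ≤ ((⊤ : ℕ∞) : WithTop ℕ∞) :=
  WithTop.coe_le_coe.2 (le_top : (2 : ℕ∞) ≤ ⊤)

/-! ### The derivative of the determinant -/

/-- the determinant as a continuous multilinear map of the rows -/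
noncomputable def detM (n : ℕ) : ContinuousMultilinearMap ℂ (fun _ : Fin n => (Fin n → ℂ)) ℂ :=
  { (Matrix.detRowAlternating (R := ℂ) (n := Fin n)).toMultilinearMap with
    cont := by
      show Continuous fun A : Fin n → Fin n → ℂ => Matrix.det A
      exact Continuous.matrix_det continuous_id }

theorem detM_apply (A : Mat n) : detM n A = A.det := rfl

private theorem pi_aux {E : Type*} [NormedAddCommGroup E] [NormedSpace ℝ E]
    {A : E → (Fin n → Fin n → ℂ)} {z : E}
    (hA : ∀ j k, DifferentiableAt ℝ (fun y => A y j k) z) :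
    HasFDerivAt A (ContinuousLinearMap.pi fun l => ContinuousLinearMap.pi fun k =>
        fderiv ℝ (fun y => A y l k) z) z := by
  have : HasFDerivAt (fun y l k => A y l k) (ContinuousLinearMap.pi fun l => ContinuousLinearMap.pi fun k =>
        fderiv ℝ (fun y => A y l k) z) z := by
    rw [hasFDerivAt_pi]
    intro l
    rw [hasFDerivAt_pi]
    intro k
    exact (hA l k).hasFDerivAt
  exact this

private theorem det_aux {E : Type*} [NormedAddCommGroup E] [NormedSpace ℝ E]
    {A : E → (Fin n → Fin n → ℂ)} {z : E}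
    (hA : ∀ j k, DifferentiableAt ℝ (fun y => A y j k) z) :
    DifferentiableAt ℝ (fun y => detM n (A y)) z ∧
    ∀ v, fderiv ℝ (fun y => detM n (A y)) z v =
      ∑ l, detM n (Function.update (A z) l (fun k => fderiv ℝ (fun y => A y l k) z v)) := by
  have h1 : HasFDerivAt (detM n) ((detM n).linearDeriv (A z)) (A z) :=
    (detM n).hasFDerivAt (A z)
  have h2 : HasFDerivAt (detM n) (((detM n).linearDeriv (A z)).restrictScalars ℝ) (A z) :=
    h1.restrictScalars ℝ
  have h4 := h2.comp z (pi_aux hA)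
  refine ⟨h4.differentiableAt, fun v => ?_⟩
  have h5 : fderiv ℝ (fun y => detM n (A y)) z = _ := h4.fderiv
  rw [h5]
  simp only [ContinuousLinearMap.comp_apply, ContinuousLinearMap.coe_restrictScalars',
    ContinuousMultilinearMap.linearDeriv_apply]
  rfl

theorem hasFDerivAt_det {E : Type*} [NormedAddCommGroup E] [NormedSpace ℝ E] {A : E → Mat n} {z : E}
    (hA : ∀ j k, DifferentiableAt ℝ (fun y => A y j k) z) :
    DifferentiableAt ℝ (fun y => (A y).det) z ∧
    ∀ v, fderiv ℝ (fun y => (A y).det) z v =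
      ∑ l, ((A z).updateRow l (fun k => fderiv ℝ (fun y => A y l k) z v)).det := by
  exact det_aux (A := A) hA

/-! ### Wirtinger derivatives -/

/-- `∂_j g` -/
noncomputable def dz (j : Fin n) (g : V n → ℂ) (z : V n) : ℂ :=
  (fderiv ℝ g z (e j) - Complex.I * fderiv ℝ g z (Complex.I • e j)) / 2

/-- `∂̄_j g` -/
noncomputable def db (j : Fin n) (g : V n → ℂ) (z : V n) : ℂ :=
  (fderiv ℝ g z (e j) + Complex.I * fderiv ℝ g z (Complex.I • e j)) / 2

/-- the complexification of a real function -/
noncomputable def cx (u : V n → ℝ) : V n → ℂ := fun y => (u y : ℂ)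

theorem cx_apply (u : V n → ℝ) (y : V n) : cx u y = (u y : ℂ) := rfl

theorem contDiff_cx {u : V n → ℝ} {m : WithTop ℕ∞} (hu : ContDiff ℝ m u) : ContDiff ℝ m (cx u) :=
  Complex.ofRealCLM.contDiff.comp hu

theorem fderiv_cx {u : V n → ℝ} {z : V n} (hu : DifferentiableAt ℝ u z) (v : V n) :
    fderiv ℝ (cx u) z v = ((fderiv ℝ u z v : ℝ) : ℂ) := by
  have h := (Complex.ofRealCLM.hasFDerivAt (x := u z)).comp z hu.hasFDerivAt
  have h2 : fderiv ℝ (cx u) z = _ := h.fderiv
  rw [h2]; rfl

theorem dz_mul {g h : V n → ℂ} {z : V n} (j : Fin n) (hg : DifferentiableAt ℝ g z)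
    (hh : DifferentiableAt ℝ h z) :
    dz j (fun y => g y * h y) z = dz j g z * h z + g z * dz j h z := by
  unfold dz
  have h1 : fderiv ℝ (fun y => g y * h y) z = g z • fderiv ℝ h z + h z • fderiv ℝ g z :=
    fderiv_fun_mul hg hh
  rw [h1]
  simp only [add_apply, smul_apply, smul_eq_mul]
  ring

theorem db_mul {g h : V n → ℂ} {z : V n} (j : Fin n) (hg : DifferentiableAt ℝ g z)
    (hh : DifferentiableAt ℝ h z) :
    db j (fun y => g y * h y) z = db j g z * h z + g z * db j h z := by
  unfold db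
  have h1 : fderiv ℝ (fun y => g y * h y) z = g z • fderiv ℝ h z + h z • fderiv ℝ g z :=
    fderiv_fun_mul hg hh
  rw [h1]
  simp only [add_apply, smul_apply, smul_eq_mul]
  ring

theorem dz_sum {ι : Type*} (s : Finset ι) {g : ι → V n → ℂ} {z : V n} (j : Fin n)
    (hg : ∀ i ∈ s, DifferentiableAt ℝ (g i) z) :
    dz j (fun y => ∑ i ∈ s, g i y) z = ∑ i ∈ s, dz j (g i) z := by
  unfold dz
  rw [fderiv_fun_sum hg]
  simp only [sum_apply, Finset.mul_sum, ← Finset.sum_sub_distrib, Finset.sum_div]

theorem db_conj {g : V n → ℂ} {z : V n} (j : Fin n) (hg : DifferentiableAt ℝ g z) :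
    db j (fun y => (starRingEnd ℂ) (g y)) z = (starRingEnd ℂ) (dz j g z) := by
  unfold db dz
  have h := (Complex.conjCLE.toContinuousLinearMap.hasFDerivAt (x := g z)).comp z hg.hasFDerivAt
  have h2 : fderiv ℝ (fun y => (starRingEnd ℂ) (g y)) z = _ := h.fderiv
  have h3 : (starRingEnd ℂ) 2 = 2 := map_ofNat _ 2
  rw [h2]
  simp [ContinuousLinearMap.comp_apply, h3]

theorem db_cx {u : V n → ℝ} {z : V n} (j : Fin n) (hu : DifferentiableAt ℝ u z) :
    db j (cx u) z = (starRingEnd ℂ) (dz j (cx u) z) := by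
  unfold db dz
  have h3 : (starRingEnd ℂ) 2 = 2 := map_ofNat _ 2
  rw [fderiv_cx hu, fderiv_cx hu]
  simp [h3]

section SecondDerivatives

variable {F : Type*} [NormedAddCommGroup F] [NormedSpace ℝ F]

theorem diff_fderiv_apply {g : V n → F} (hg : ContDiff ℝ 2 g) (z w : V n) :
    DifferentiableAt ℝ (fun y => fderiv ℝ g y w) z := by
  have h1 : ContDiff ℝ 1 (fderiv ℝ g) := hg.fderiv_right (by norm_num)
  exact (h1.differentiable (by norm_num) z).clm_apply (differentiableAt_const w)

theorem fderiv_fderiv_apply {g : V n → F} (hg : ContDiff ℝ 2 g) (z v w : V n) :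
    fderiv ℝ (fun y => fderiv ℝ g y w) z v = fderiv ℝ (fderiv ℝ g) z v w := by
  have h1 : ContDiff ℝ 1 (fderiv ℝ g) := hg.fderiv_right (by norm_num)
  have h2 := h1.differentiable (by norm_num) z
  have h3 := h2.hasFDerivAt.clm_apply (hasFDerivAt_const w z)
  rw [h3.fderiv]
  simp

theorem snd_symm {g : V n → F} (hg : ContDiff ℝ 2 g) (z v w : V n) :
    fderiv ℝ (fderiv ℝ g) z v w = fderiv ℝ (fderiv ℝ g) z w v :=
  (hg.contDiffAt.isSymmSndFDerivAt (by simp)).eq v w

end SecondDerivatives

theorem diff_dz {g : V n → ℂ} (hg : ContDiff ℝ 2 g) (j : Fin n) (z : V n) :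
    DifferentiableAt ℝ (fun y => dz j g y) z := by
  unfold dz
  simp only [div_eq_mul_inv]
  exact ((diff_fderiv_apply hg z _).fun_sub ((diff_fderiv_apply hg z _).const_mul _)).mul_const _

theorem diff_db {g : V n → ℂ} (hg : ContDiff ℝ 2 g) (j : Fin n) (z : V n) :
    DifferentiableAt ℝ (fun y => db j g y) z := by
  unfold db
  simp only [div_eq_mul_inv]
  exact ((diff_fderiv_apply hg z _).fun_add ((diff_fderiv_apply hg z _).const_mul _)).mul_const _

theorem fderiv_dz {g : V n → ℂ} (hg : ContDiff ℝ 2 g) (l : Fin n) (z v : V n) :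
    fderiv ℝ (fun y => dz l g y) z v =
      (fderiv ℝ (fderiv ℝ g) z v (e l) - Complex.I * fderiv ℝ (fderiv ℝ g) z v (Complex.I • e l)) / 2 := by
  have h : HasFDerivAt (fun y => dz l g y) ((2 : ℂ)⁻¹ • (fderiv ℝ (fun y => fderiv ℝ g y (e l)) z -
      Complex.I • fderiv ℝ (fun y => fderiv ℝ g y (Complex.I • e l)) z)) z := by
    have h1 := (diff_fderiv_apply hg z (e l)).hasFDerivAt
    have h2 := (diff_fderiv_apply hg z (Complex.I • e l)).hasFDerivAt
    have h3 := (h1.sub (h2.const_mul Complex.I)).const_mul (2 : ℂ)⁻¹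
    refine h3.congr_of_eventuallyEq (Eventually.of_forall fun y => ?_)
    show dz l g y = (2 : ℂ)⁻¹ * (fderiv ℝ g y (e l) - Complex.I * fderiv ℝ g y (Complex.I • e l))
    unfold dz; ring
  rw [h.fderiv]
  simp only [smul_apply, sub_apply, fderiv_fderiv_apply hg, smul_eq_mul]
  ring

theorem fderiv_db {g : V n → ℂ} (hg : ContDiff ℝ 2 g) (l : Fin n) (z v : V n) :
    fderiv ℝ (fun y => db l g y) z v =
      (fderiv ℝ (fderiv ℝ g) z v (e l) + Complex.I * fderiv ℝ (fderiv ℝ g) z v (Complex.I • e l)) / 2 := by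
  have h : HasFDerivAt (fun y => db l g y) ((2 : ℂ)⁻¹ • (fderiv ℝ (fun y => fderiv ℝ g y (e l)) z +
      Complex.I • fderiv ℝ (fun y => fderiv ℝ g y (Complex.I • e l)) z)) z := by
    have h1 := (diff_fderiv_apply hg z (e l)).hasFDerivAt
    have h2 := (diff_fderiv_apply hg z (Complex.I • e l)).hasFDerivAt
    have h3 := (h1.add (h2.const_mul Complex.I)).const_mul (2 : ℂ)⁻¹
    refine h3.congr_of_eventuallyEq (Eventually.of_forall fun y => ?_)
    show db l g y = (2 : ℂ)⁻¹ * (fderiv ℝ g y (e l) + Complex.I * fderiv ℝ g y (Complex.I • e l))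
    unfold db; ring
  rw [h.fderiv]
  simp only [smul_apply, add_apply, fderiv_fderiv_apply hg, smul_eq_mul]
  ring

/-- symmetry of second derivatives -/
theorem dz_comm {g : V n → ℂ} (hg : ContDiff ℝ 2 g) (j l : Fin n) (z : V n) :
    dz j (fun y => dz l g y) z = dz l (fun y => dz j g y) z := by
  conv_lhs => unfold dz
  conv_rhs => unfold dz
  have h1 := fderiv_dz hg l z
  have h2 := fderiv_dz hg j z
  unfold dz at h1 h2
  rw [h1, h1, h2, h2, snd_symm hg z (e l) (e j), snd_symm hg z (Complex.I • e l) (e j),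
    snd_symm hg z (Complex.I • e l) (Complex.I • e j), snd_symm hg z (e l) (Complex.I • e j)]
  ring

theorem dz_db_comm {g : V n → ℂ} (hg : ContDiff ℝ 2 g) (j l : Fin n) (z : V n) :
    dz j (fun y => db l g y) z = db l (fun y => dz j g y) z := by
  have h1 := fderiv_db hg l z
  have h2 := fderiv_dz hg j z
  have e1 : dz j (fun y => db l g y) z = (fderiv ℝ (fun y => db l g y) z (e j) -
      Complex.I * fderiv ℝ (fun y => db l g y) z (Complex.I • e j)) / 2 := rfl
  have e2 : db l (fun y => dz j g y) z = (fderiv ℝ (fun y => dz j g y) z (e l) +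
      Complex.I * fderiv ℝ (fun y => dz j g y) z (Complex.I • e l)) / 2 := rfl
  rw [e1, e2, h1, h1, h2, h2, snd_symm hg z (e l), snd_symm hg z (Complex.I • e l) (e j),
    snd_symm hg z (Complex.I • e l) (Complex.I • e j), snd_symm hg z (e l) (Complex.I • e j)]
  ring

theorem contDiff_dz {g : V n → ℂ} (hg : ContDiff ℝ (⊤ : ℕ∞) g) (j : Fin n) :
    ContDiff ℝ (⊤ : ℕ∞) (fun y => dz j g y) := by
  have h1 : ContDiff ℝ (⊤ : ℕ∞) (fderiv ℝ g) := hg.fderiv_right (by simp)
  unfold dz
  exact ((h1.clm_apply contDiff_const).sub (contDiff_const.mul (h1.clm_apply contDiff_const))).div_const _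

theorem contDiff_db {g : V n → ℂ} (hg : ContDiff ℝ (⊤ : ℕ∞) g) (j : Fin n) :
    ContDiff ℝ (⊤ : ℕ∞) (fun y => db j g y) := by
  have h1 : ContDiff ℝ (⊤ : ℕ∞) (fderiv ℝ g) := hg.fderiv_right (by simp)
  unfold db
  exact ((h1.clm_apply contDiff_const).add (contDiff_const.mul (h1.clm_apply contDiff_const))).div_const _

theorem fderiv2_cx {u : V n → ℝ} (hu : ContDiff ℝ 2 u) (z v w : V n) :
    fderiv ℝ (fderiv ℝ (cx u)) z v w = ((D2 u z v w : ℝ) : ℂ) := by
  rw [← fderiv_fderiv_apply (contDiff_cx hu)]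
  have h1 : (fun y => fderiv ℝ (cx u) y w) = cx (fun y => fderiv ℝ u y w) := by
    funext y
    exact fderiv_cx (hu.differentiable (by norm_num) y) w
  rw [h1, fderiv_cx (diff_fderiv_apply hu z w), fderiv_fderiv_apply hu]
  rfl

theorem hess_eq {u : V n → ℝ} (hu : ContDiff ℝ 2 u) (j k : Fin n) (z : V n) :
    hess u z j k = dz j (fun y => db k (cx u) y) z := by
  have e1 : dz j (fun y => db k (cx u) y) z = (fderiv ℝ (fun y => db k (cx u) y) z (e j) -
      Complex.I * fderiv ℝ (fun y => db k (cx u) y) z (Complex.I • e j)) / 2 := rfl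
  rw [e1, fderiv_db (contDiff_cx hu), fderiv_db (contDiff_cx hu)]
  simp only [fderiv2_cx hu]
  unfold hess
  push_cast
  have hI : Complex.I * Complex.I = -1 := Complex.I_mul_I
  linear_combination ((D2 u z (Complex.I • e j) (Complex.I • e k) : ℂ) / 4) * hI

/-! ### Cofactors -/

/-- `cof H j k`: the coefficient of the entry `(j, k)` in the expansion of the determinant -/
noncomputable def cof (H : Mat n) (j k : Fin n) : ℂ := (H.updateRow j (Pi.single k 1)).det

theorem cof_eq_adjugate (H : Mat n) (j k : Fin n) : cof H j k = H.adjugate k j := by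
  rw [Matrix.adjugate_apply]; rfl

theorem det_updateRow_eq (H : Mat n) (l : Fin n) (w : Fin n → ℂ) :
    (H.updateRow l w).det = ∑ m, w m * cof H l m := by
  rw [Matrix.det_eq_sum_mul_adjugate_row (H.updateRow l w) l]
  refine Finset.sum_congr rfl fun m _ => ?_
  rw [cof_eq_adjugate, Matrix.adjugate_apply, Matrix.adjugate_apply]
  simp

theorem trace_adj_mul (H K : Mat n) : (H.adjugate * K).trace = ∑ j, ∑ k, cof H j k * K j k := by
  rw [Matrix.trace]
  simp only [Matrix.diag_apply, Matrix.mul_apply, cof_eq_adjugate]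
  rw [Finset.sum_comm]

/-- derivative of a determinant in terms of cofactors -/
theorem fderiv_det {E : Type*} [NormedAddCommGroup E] [NormedSpace ℝ E] {A : E → Mat n} {z : E}
    (hA : ∀ j k, DifferentiableAt ℝ (fun y => A y j k) z) (v : E) :
    fderiv ℝ (fun y => (A y).det) z v =
      ∑ l, ∑ m, fderiv ℝ (fun y => A y l m) z v * cof (A z) l m := by
  rw [(hasFDerivAt_det hA).2 v]
  exact Finset.sum_congr rfl fun l _ => det_updateRow_eq _ _ _

theorem dz_det {A : V n → Mat n} {z : V n}
    (hA : ∀ j k, DifferentiableAt ℝ (fun y => A y j k) z) (i : Fin n) :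
    dz i (fun y => (A y).det) z = ∑ l, ∑ m, dz i (fun y => A y l m) z * cof (A z) l m := by
  unfold dz
  rw [fderiv_det hA, fderiv_det hA, Finset.mul_sum, ← Finset.sum_sub_distrib, Finset.sum_div]
  refine Finset.sum_congr rfl fun l _ => ?_
  rw [Finset.mul_sum, ← Finset.sum_sub_distrib, Finset.sum_div]
  refine Finset.sum_congr rfl fun m _ => ?_
  ring

theorem det_swap_rows (H : Mat n) {j l : Fin n} (hjl : j ≠ l) (a b : Fin n → ℂ) :
    ((H.updateRow l a).updateRow j b).det = -((H.updateRow j a).updateRow l b).det := by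
  have h1 : (H.updateRow l a).updateRow j b =
      ((H.updateRow j a).updateRow l b).submatrix (Equiv.swap j l) id := by
    ext i m
    simp only [Matrix.submatrix_apply, id]
    by_cases hij : i = j
    · subst hij
      simp
    · by_cases hil : i = l
      · subst hil
        rw [Equiv.swap_apply_right, Matrix.updateRow_ne hij, Matrix.updateRow_self,
          Matrix.updateRow_ne hjl, Matrix.updateRow_self]
      · rw [Equiv.swap_apply_of_ne_of_ne hij hil, Matrix.updateRow_ne hij, Matrix.updateRow_ne hil,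
          Matrix.updateRow_ne hil, Matrix.updateRow_ne hij]
  rw [h1, Matrix.det_permute, Equiv.Perm.sign_swap hjl]
  simp

theorem diff_hess {u : V n → ℝ} (hu : ContDiff ℝ (⊤ : ℕ∞) u) (j k : Fin n) (z : V n) :
    DifferentiableAt ℝ (fun y => hess u y j k) z := by
  have h2 : ContDiff ℝ 2 u := hu.of_le two_le_infty
  have h : (fun y => hess u y j k) = fun y => dz j (fun w => db k (cx u) w) y := by
    funext y; exact hess_eq h2 j k y
  rw [h]
  exact diff_dz ((contDiff_db (contDiff_cx hu) k).of_le two_le_infty) j z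

theorem contDiff_hess {u : V n → ℝ} (hu : ContDiff ℝ (⊤ : ℕ∞) u) (j k : Fin n) :
    ContDiff ℝ (⊤ : ℕ∞) (fun y => hess u y j k) := by
  have h2 : ContDiff ℝ 2 u := hu.of_le two_le_infty
  have h : (fun y => hess u y j k) = fun y => dz j (fun w => db k (cx u) w) y := by
    funext y; exact hess_eq h2 j k y
  rw [h]
  exact contDiff_dz (contDiff_db (contDiff_cx hu) k) j

theorem contDiff_det {A : V n → Mat n} (hA : ∀ j k, ContDiff ℝ (⊤ : ℕ∞) (fun y => A y j k)) :
    ContDiff ℝ (⊤ : ℕ∞) (fun y => (A y).det) := by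
  simp only [Matrix.det_apply]
  refine ContDiff.sum fun σ _ => ?_
  refine ContDiff.const_smul _ ?_
  exact contDiff_prod fun i _ => hA _ _

theorem contDiff_cof {u : V n → ℝ} (hu : ContDiff ℝ (⊤ : ℕ∞) u) (j k : Fin n) :
    ContDiff ℝ (⊤ : ℕ∞) (fun y => cof (hess u y) j k) := by
  unfold cof
  refine contDiff_det fun l m => ?_
  by_cases hl : l = j
  · subst hl
    simp only [Matrix.updateRow_self]
    exact contDiff_const
  · simp only [Matrix.updateRow_ne hl]
    exact contDiff_hess hu l m

theorem dz_hess_comm {u : V n → ℝ} (hu : ContDiff ℝ (⊤ : ℕ∞) u) (j l m : Fin n) (z : V n) :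
    dz j (fun y => hess u y l m) z = dz l (fun y => hess u y j m) z := by
  have h2 : ContDiff ℝ 2 u := hu.of_le two_le_infty
  have h : ∀ l, (fun y => hess u y l m) = fun y => dz l (fun w => db m (cx u) w) y := by
    intro l; funext y; exact hess_eq h2 l m y
  rw [h l, h j]
  exact dz_comm ((contDiff_db (contDiff_cx hu) m).of_le two_le_infty) j l z

/-- (11.1): the rows of the cofactor matrix are divergence free -/
theorem div_cof {u : V n → ℝ} (hu : ContDiff ℝ (⊤ : ℕ∞) u) (k : Fin n) (z : V n) :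
    ∑ j, dz j (fun y => cof (hess u y) j k) z = 0 := by
  classical
  set T : Fin n → Fin n → ℂ := fun j l => if l = j then 0 else
    (((hess u z).updateRow j (Pi.single k 1)).updateRow l
      (fun m => dz j (fun y => hess u y l m) z)).det with hT
  have h1 : ∀ j, dz j (fun y => cof (hess u y) j k) z = ∑ l, T j l := by
    intro j
    have hA : ∀ l m, DifferentiableAt ℝ
        (fun y => ((hess u y).updateRow j (Pi.single k 1)) l m) z := by
      intro l m
      by_cases hl : l = j
      · subst hl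
        simp only [Matrix.updateRow_self]
        exact differentiableAt_const _
      · simp only [Matrix.updateRow_ne hl]
        exact diff_hess hu l m z
    show dz j (fun y => ((hess u y).updateRow j (Pi.single k 1)).det) z = _
    rw [dz_det hA j]
    refine Finset.sum_congr rfl fun l _ => ?_
    rw [hT]
    by_cases hl : l = j
    · subst hl
      simp only [Matrix.updateRow_self, if_true]
      refine Finset.sum_eq_zero fun m _ => ?_
      have : dz l (fun _ : V n => (Pi.single k (1 : ℂ) : Fin n → ℂ) m) z = 0 := by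
        unfold dz; simp
      rw [this, zero_mul]
    · simp only [if_neg hl, Matrix.updateRow_ne hl]
      rw [det_updateRow_eq]
  have h2 : ∀ j l, T j l = - T l j := by
    intro j l
    simp only [hT]
    by_cases hl : l = j
    · subst hl; simp
    · have hl' : ¬ j = l := fun h => hl h.symm
      rw [if_neg hl, if_neg hl', det_swap_rows _ hl']
      rw [neg_neg]
      congr 2
      funext m
      exact dz_hess_comm hu j l m z
  have h3 : ∑ j, ∑ l, T j l = - ∑ j, ∑ l, T j l := by
    conv_lhs => rw [Finset.sum_comm]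
    rw [← Finset.sum_neg_distrib]
    refine Finset.sum_congr rfl fun l _ => ?_
    rw [← Finset.sum_neg_distrib]
    exact Finset.sum_congr rfl fun j _ => h2 j l
  have h4 : ∑ j, ∑ l, T j l = 0 := by
    have : (2 : ℂ) * ∑ j, ∑ l, T j l = 0 := by
      rw [two_mul]; nth_rewrite 1 [h3]; ring
    simpa using this
  rw [← h4]
  exact Finset.sum_congr rfl fun j _ => h1 j

end Pool.Agent.Helper5.AM
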