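import Pool.Agent.Helper5.AM.Cof

/-!
# Project AM, (11.2): integration by parts for the linearised Monge-Ampere operator
-/

set_option autoImplicit false

namespace Pool.Agent.Helper5.AM

open MeasureTheory Set Filter Topology
open Pool.Agent.Helper29.AM
open scoped ComplexOrder

variable {n : ℕ}

/-! ### The complex Hessian is hermitian and represents the Levi form -/

theorem D2_symm {u : V n → ℝ} (hu : ContDiff ℝ 2 u) (z v w : V n) : D2 u z v w = D2 u z w v :=
  snd_symm hu z v w

/-- the sesquilinear form with `S(e_j, e_k) = 4 u_{j k̄}` -/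
noncomputable def ses (u : V n → ℝ) (z v w : V n) : ℂ :=
  ((D2 u z v w + D2 u z (Complex.I • v) (Complex.I • w) : ℝ) : ℂ) +
    ((D2 u z v (Complex.I • w) - D2 u z (Complex.I • v) w : ℝ) : ℂ) * Complex.I

theorem ses_add_left (u : V n → ℝ) (z v v' w : V n) :
    ses u z (v + v') w = ses u z v w + ses u z v' w := by
  unfold ses D2
  simp only [smul_add, map_add, add_apply]
  push_cast; ring

theorem ses_add_right (u : V n → ℝ) (z v w w' : V n) :
    ses u z v (w + w') = ses u z v w + ses u z v w' := by
  unfold ses D2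
  simp only [smul_add, map_add, add_apply]
  push_cast; ring

theorem ses_smul_left (u : V n → ℝ) (z v w : V n) (c : ℂ) :
    ses u z (c • v) w = c * ses u z v w := by
  have hc : c = ((c.re : ℝ) : ℂ) + ((c.im : ℝ) : ℂ) * Complex.I := (Complex.re_add_im c).symm
  have h1 : ∀ x : V n, ((c.re : ℝ) : ℂ) • x = c.re • x := fun x => by
    rw [Complex.coe_smul]
  have h2 : ∀ x : V n, ((c.im : ℝ) : ℂ) • x = c.im • x := fun x => by
    rw [Complex.coe_smul]
  have e1 : c • v = c.re • v + c.im • (Complex.I • v) := by
    conv_lhs => rw [hc]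
    rw [add_smul, mul_smul, h1, h2]
  have e2 : Complex.I • (c • v) = c.re • (Complex.I • v) - c.im • v := by
    rw [e1, smul_add, smul_comm, smul_comm Complex.I c.im, smul_smul, Complex.I_mul_I]
    simp [sub_eq_add_neg]
  unfold ses D2
  rw [e2, e1]
  simp only [map_add, map_sub, map_smul, add_apply, smul_apply, sub_apply, smul_eq_mul]
  conv_rhs => rw [hc]
  have hI : Complex.I * Complex.I = -1 := Complex.I_mul_I
  push_cast
  ring_nf
  simp only [Complex.I_sq]
  ring

theorem ses_smul_right (u : V n → ℝ) (z v w : V n) (c : ℂ) :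
    ses u z v (c • w) = (starRingEnd ℂ) c * ses u z v w := by
  have hc : (starRingEnd ℂ) c = ((c.re : ℝ) : ℂ) - ((c.im : ℝ) : ℂ) * Complex.I := by
    apply Complex.ext <;> simp
  have hc' : c = ((c.re : ℝ) : ℂ) + ((c.im : ℝ) : ℂ) * Complex.I := (Complex.re_add_im c).symm
  have h1 : ∀ x : V n, ((c.re : ℝ) : ℂ) • x = c.re • x := fun x => by
    rw [Complex.coe_smul]
  have h2 : ∀ x : V n, ((c.im : ℝ) : ℂ) • x = c.im • x := fun x => by
    rw [Complex.coe_smul]
  have e1 : c • w = c.re • w + c.im • (Complex.I • w) := by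
    conv_lhs => rw [hc']
    rw [add_smul, mul_smul, h1, h2]
  have e2 : Complex.I • (c • w) = c.re • (Complex.I • w) - c.im • w := by
    rw [e1, smul_add, smul_comm, smul_comm Complex.I c.im, smul_smul, Complex.I_mul_I]
    simp [sub_eq_add_neg]
  unfold ses D2
  rw [e2, e1, hc]
  simp only [map_add, map_sub, map_smul, add_apply, smul_apply, sub_apply, smul_eq_mul]
  push_cast
  ring_nf
  simp only [Complex.I_sq]
  ring

theorem vec_eq_sum (v : V n) : v = ∑ j, v j • e j := by
  ext i
  simp only [e, PiLp.smul_apply, WithLp.ofLp_sum, Finset.sum_apply, WithLp.ofLp_smul, Pi.smul_apply]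
  rw [Finset.sum_eq_single i]
  · simp
  · intro b _ hb
    simp [hb.symm]
  · simp

theorem ses_sum_left (u : V n → ℝ) (z w : V n) {ι : Type*} (s : Finset ι) (f : ι → V n) :
    ses u z (∑ i ∈ s, f i) w = ∑ i ∈ s, ses u z (f i) w := by
  classical
  induction s using Finset.induction_on with
  | empty =>
    simp only [Finset.sum_empty]
    have := ses_smul_left u z 0 w 0
    simpa using this
  | insert a s ha ih => rw [Finset.sum_insert ha, Finset.sum_insert ha, ses_add_left, ih]

theorem ses_sum_right (u : V n → ℝ) (z v : V n) {ι : Type*} (s : Finset ι) (f : ι → V n) :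
    ses u z v (∑ i ∈ s, f i) = ∑ i ∈ s, ses u z v (f i) := by
  classical
  induction s using Finset.induction_on with
  | empty =>
    simp only [Finset.sum_empty]
    have := ses_smul_right u z v 0 0
    simpa using this
  | insert a s ha ih => rw [Finset.sum_insert ha, Finset.sum_insert ha, ses_add_right, ih]

theorem ses_e (u : V n → ℝ) (z : V n) (j k : Fin n) : ses u z (e j) (e k) = 4 * hess u z j k := by
  unfold ses hess
  ring

theorem ses_eq (u : V n → ℝ) (z v w : V n) :
    ses u z v w = 4 * ∑ j, ∑ k, hess u z j k * v j * (starRingEnd ℂ) (w k) := by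
  conv_lhs => rw [vec_eq_sum v, vec_eq_sum w]
  rw [ses_sum_left, Finset.mul_sum]
  refine Finset.sum_congr rfl fun j _ => ?_
  rw [ses_smul_left, ses_sum_right, Finset.mul_sum, Finset.mul_sum]
  refine Finset.sum_congr rfl fun k _ => ?_
  rw [ses_smul_right, ses_e]
  ring

/-- the hermitian form of the complex Hessian is the Levi form -/
theorem lf_hess (u : V n → ℝ) (z v : V n) : lf (hess u z) v = lev u z v := by
  have h := ses_eq u z v v
  have h2 := congrArg Complex.re h
  have h3 : (ses u z v v).re = D2 u z v v + D2 u z (Complex.I • v) (Complex.I • v) := by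
    unfold ses; simp
  rw [h3] at h2
  unfold lf lev
  have h4 : (4 * ∑ j, ∑ k, hess u z j k * v j * (starRingEnd ℂ) (v k)).re =
      4 * (∑ j, ∑ k, hess u z j k * v j * (starRingEnd ℂ) (v k)).re := by
    simp
  rw [h4] at h2
  linarith

theorem hess_isHermitian {u : V n → ℝ} (hu : ContDiff ℝ 2 u) (z : V n) :
    (hess u z).IsHermitian := by
  refine Matrix.IsHermitian.ext fun j k => ?_
  have h4 : (starRingEnd ℂ) 4 = 4 := map_ofNat _ 4
  show (starRingEnd ℂ) (hess u z k j) = hess u z j k
  unfold hess
  simp only [map_div₀, map_add, map_mul, Complex.conj_ofReal, Complex.conj_I, h4]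
  rw [D2_symm hu z (e k) (e j), D2_symm hu z (Complex.I • e k) (Complex.I • e j),
    D2_symm hu z (e k) (Complex.I • e j), D2_symm hu z (Complex.I • e k) (e j)]
  push_cast
  ring

theorem star_dot_mulVec (H : Mat n) (x : Fin n → ℂ) :
    (dotProduct (star x) (H.mulVec x)) =
      ∑ j, ∑ k, H j k * (starRingEnd ℂ) (x j) * x k := by
  simp only [dotProduct, Matrix.mulVec, Pi.star_apply, Finset.mul_sum]
  refine Finset.sum_congr rfl fun j _ => Finset.sum_congr rfl fun k _ => ?_
  show (starRingEnd ℂ) (x j) * (H j k * x k) = _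
  ring

/-- smooth psh functions have positive semidefinite complex Hessian -/
theorem hess_posSemidef {u : V n → ℝ} (hu : ContDiff ℝ 2 u) {z : V n}
    (hp : ∀ v, 0 ≤ lev u z v) : (hess u z).PosSemidef := by
  refine Matrix.PosSemidef.of_dotProduct_mulVec_nonneg (hess_isHermitian hu z) fun x => ?_
  rw [star_dot_mulVec]
  have h := lf_hess u z (WithLp.toLp 2 (star x))
  have h0 := hp (WithLp.toLp 2 (star x))
  rw [← h] at h0
  have e1 : ∑ j, ∑ k, hess u z j k * (starRingEnd ℂ) (x j) * x k =
      ∑ j, ∑ k, hess u z j k * (WithLp.toLp 2 (star x) : V n) j *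
        (starRingEnd ℂ) ((WithLp.toLp 2 (star x) : V n) k) := by
    refine Finset.sum_congr rfl fun j _ => Finset.sum_congr rfl fun k _ => ?_
    simp
  rw [e1]
  have h5 := ses_eq u z (WithLp.toLp 2 (star x)) (WithLp.toLp 2 (star x))
  have him : (ses u z (WithLp.toLp 2 (star x)) (WithLp.toLp 2 (star x))).im = 0 := by
    unfold ses
    simp only [Complex.add_im, Complex.ofReal_im, Complex.mul_im, Complex.I_re, Complex.I_im,
      Complex.ofReal_re, mul_one, mul_zero, add_zero, zero_add]
    rw [D2_symm hu z (Complex.I • _) _]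
    ring
  rw [Complex.le_def]
  constructor
  · simpa [lf] using h0
  · have h6 := congrArg Complex.im h5
    rw [him] at h6
    simp only [Complex.mul_im, Complex.re_ofNat, Complex.im_ofNat, zero_mul, add_zero] at h6
    show (0 : ℂ).im = _
    simp only [Complex.zero_im]
    linarith

end Pool.Agent.Helper5.AM
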