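import Pool.Agent.Helper5.AM.Ibp

/-!
# Project AM, (11.2): integration by parts for the linearised Monge-Ampere operator
-/

set_option autoImplicit false

namespace Pool.Agent.Helper5.AM

open MeasureTheory Set Filter Topology
open Pool.Agent.Helper29.AM
open scoped ComplexOrder

variable {n : ℕ}

/-! ### Integration by parts -/

theorem one_le_infty : (1 : WithTop ℕ∞) ≤ ((⊤ : ℕ∞) : WithTop ℕ∞) :=
  WithTop.coe_le_coe.2 (le_top : (1 : ℕ∞) ≤ ⊤)

theorem integral_fderiv_apply_eq_zero {f : V n → ℂ} (hf : ContDiff ℝ 1 f)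
    (hc : HasCompactSupport f) (v : V n) : ∫ z, fderiv ℝ f z v = 0 := by
  have hcont : Continuous fun z => fderiv ℝ f z v :=
    (hf.continuous_fderiv (by norm_num)).clm_apply continuous_const
  have hcs : HasCompactSupport fun z => fderiv ℝ f z v := hc.fderiv_apply ℝ v
  have hint : Integrable fun z => fderiv ℝ f z v := hcont.integrable_of_hasCompactSupport hcs
  have hintf : Integrable f := hf.continuous.integrable_of_hasCompactSupport hc
  have h := integral_mul_fderiv_eq_neg_fderiv_mul_of_integrable (μ := (volume : Measure (V n)))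
    (f := fun _ : V n => (1 : ℂ)) (g := f) (v := v) (by simp) (by simpa using hint)
    (by simpa using hintf) (fun x _ => differentiableAt_const _)
    (fun x _ => hf.differentiable (by norm_num) x)
  simpa using h

theorem integral_dz {f : V n → ℂ} (hf : ContDiff ℝ 1 f) (hc : HasCompactSupport f) (j : Fin n) :
    ∫ z, dz j f z = 0 := by
  have hcs : ∀ v, Integrable fun z => fderiv ℝ f z v := fun v =>
    ((hf.continuous_fderiv (by norm_num)).clm_apply continuous_const).integrable_of_hasCompactSupport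
      (hc.fderiv_apply ℝ v)
  unfold dz
  rw [integral_div, integral_sub (hcs _) ((hcs _).const_mul _), integral_const_mul,
    integral_fderiv_apply_eq_zero hf hc, integral_fderiv_apply_eq_zero hf hc]
  simp

/-! ### The linearised operator -/

/-- `∑ Cof(u)^{jk} h_{j k̄}` (complex valued; it is real) -/
noncomputable def Lc (u h : V n → ℝ) (z : V n) : ℂ := ∑ j, ∑ k, cof (hess u z) j k * hess h z j k

/-- `∑ Cof(u)^{jk} ∂_j h₁ ∂̄_k h₂` -/
noncomputable def Gc (u h₁ h₂ : V n → ℝ) (z : V n) : ℂ :=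
  ∑ j, ∑ k, cof (hess u z) j k * dz j (cx h₁) z * db k (cx h₂) z

/-- the linearised operator `L_u h = ∑ Cof(u)^{jk} h_{j k̄}` -/
noncomputable def Lop (u h : V n → ℝ) (z : V n) : ℝ := (Lc u h z).re

/-- the energy density -/
noncomputable def Gop (u h₁ h₂ : V n → ℝ) (z : V n) : ℝ := (Gc u h₁ h₂ z).re

/-- the auxiliary vector field -/
noncomputable def vf (u h : V n → ℝ) (j : Fin n) (z : V n) : ℂ :=
  ∑ k, cof (hess u z) j k * db k (cx h) z

theorem contDiff_vf {u h : V n → ℝ} (hu : ContDiff ℝ (⊤ : ℕ∞) u) (hh : ContDiff ℝ (⊤ : ℕ∞) h)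
    (j : Fin n) : ContDiff ℝ (⊤ : ℕ∞) (vf u h j) := by
  unfold vf
  exact ContDiff.sum fun k _ => (contDiff_cof hu j k).mul (contDiff_db (contDiff_cx hh) k)

theorem div_vf {u h : V n → ℝ} (hu : ContDiff ℝ (⊤ : ℕ∞) u) (hh : ContDiff ℝ (⊤ : ℕ∞) h) (z : V n) :
    ∑ j, dz j (vf u h j) z = Lc u h z := by
  have hd1 : ∀ j k, DifferentiableAt ℝ (fun y => cof (hess u y) j k) z := fun j k =>
    (contDiff_cof hu j k).differentiable (by simp) z
  have hd2 : ∀ k, DifferentiableAt ℝ (fun y => db k (cx h) y) z := fun k =>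
    (contDiff_db (contDiff_cx hh) k).differentiable (by simp) z
  have h1 : ∀ j, dz j (vf u h j) z = ∑ k, (dz j (fun y => cof (hess u y) j k) z * db k (cx h) z +
      cof (hess u z) j k * hess h z j k) := by
    intro j
    have : vf u h j = fun y => ∑ k, cof (hess u y) j k * db k (cx h) y := rfl
    rw [this, dz_sum _ _ (fun k _ => (hd1 j k).fun_mul (hd2 k))]
    refine Finset.sum_congr rfl fun k _ => ?_
    rw [dz_mul j (hd1 j k) (hd2 k), hess_eq (hh.of_le two_le_infty)]
  simp only [h1, Finset.sum_add_distrib]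
  unfold Lc
  have h2 : ∑ j, ∑ k, dz j (fun y => cof (hess u y) j k) z * db k (cx h) z = 0 := by
    rw [Finset.sum_comm]
    refine Finset.sum_eq_zero fun k _ => ?_
    rw [← Finset.sum_mul, div_cof hu k z, zero_mul]
  rw [h2, zero_add]

theorem cpt_dz {f : V n → ℂ} (hc : HasCompactSupport f) (j : Fin n) :
    HasCompactSupport (fun z => dz j f z) := by
  unfold dz
  simp only [div_eq_mul_inv]
  exact ((hc.fderiv_apply ℝ (e j)).sub ((hc.fderiv_apply ℝ (Complex.I • e j)).mul_left)).mul_right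

theorem cpt_db {f : V n → ℂ} (hc : HasCompactSupport f) (j : Fin n) :
    HasCompactSupport (fun z => db j f z) := by
  unfold db
  simp only [div_eq_mul_inv]
  exact ((hc.fderiv_apply ℝ (e j)).add ((hc.fderiv_apply ℝ (Complex.I • e j)).mul_left)).mul_right

theorem cpt_cx {h : V n → ℝ} (hc : HasCompactSupport h) : HasCompactSupport (cx h) := by
  exact hc.comp_left (g := fun x : ℝ => (x : ℂ)) (by simp)

theorem cpt_vf {u h : V n → ℝ} (hc : HasCompactSupport h) (j : Fin n) :
    HasCompactSupport (vf u h j) := by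
  unfold vf
  have : ∀ s : Finset (Fin n), HasCompactSupport
      (fun z => ∑ k ∈ s, cof (hess u z) j k * db k (cx h) z) := by
    classical
    intro s
    induction s using Finset.induction_on with
    | empty =>
      simp only [Finset.sum_empty]
      exact (HasCompactSupport.zero : HasCompactSupport (0 : V n → ℂ))
    | insert a s ha ih =>
      simp only [Finset.sum_insert ha]
      exact ((cpt_db (cpt_cx hc) a).mul_left).add ih
  exact this _

/-- (11.2), complex form -/
theorem ibp_complex {u h₁ h₂ : V n → ℝ} (hu : ContDiff ℝ (⊤ : ℕ∞) u)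
    (h1 : ContDiff ℝ (⊤ : ℕ∞) h₁) (h2 : ContDiff ℝ (⊤ : ℕ∞) h₂)
    (hc : HasCompactSupport h₁ ∨ HasCompactSupport h₂) :
    (Integrable fun z => (h₁ z : ℂ) * Lc u h₂ z) ∧ (Integrable fun z => Gc u h₁ h₂ z) ∧
    ∫ z, (h₁ z : ℂ) * Lc u h₂ z = - ∫ z, Gc u h₁ h₂ z := by
  have hv := fun j => contDiff_vf hu h2 j
  have hcj : ∀ j, HasCompactSupport (fun z => cx h₁ z * vf u h₂ j z) := fun j => by
    rcases hc with hc | hc
    · exact (cpt_cx hc).mul_right
    · exact (cpt_vf hc j).mul_left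
  have hcj2 : ∀ j, HasCompactSupport (fun z => dz j (cx h₁) z * vf u h₂ j z) := fun j => by
    rcases hc with hc | hc
    · exact (cpt_dz (cpt_cx hc) j).mul_right
    · exact (cpt_vf hc j).mul_left
  have hcj3 : ∀ j, HasCompactSupport (fun z => cx h₁ z * dz j (vf u h₂ j) z) := fun j => by
    rcases hc with hc | hc
    · exact (cpt_cx hc).mul_right
    · exact (cpt_dz (cpt_vf hc j) j).mul_left
  have hs : ∀ j, ContDiff ℝ (⊤ : ℕ∞) (fun z => cx h₁ z * vf u h₂ j z) := fun j =>
    (contDiff_cx h1).mul (hv j)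
  have hs2 : ∀ j, Continuous (fun z => dz j (cx h₁) z * vf u h₂ j z) := fun j =>
    ((contDiff_dz (contDiff_cx h1) j).mul (hv j)).continuous
  have hs3 : ∀ j, Continuous (fun z => cx h₁ z * dz j (vf u h₂ j) z) := fun j =>
    ((contDiff_cx h1).mul (contDiff_dz (hv j) j)).continuous
  have i2 : ∀ j, Integrable (fun z => dz j (cx h₁) z * vf u h₂ j z) := fun j =>
    (hs2 j).integrable_of_hasCompactSupport (hcj2 j)
  have i3 : ∀ j, Integrable (fun z => cx h₁ z * dz j (vf u h₂ j) z) := fun j =>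
    (hs3 j).integrable_of_hasCompactSupport (hcj3 j)
  have key : ∀ j, ∫ z, cx h₁ z * dz j (vf u h₂ j) z = - ∫ z, dz j (cx h₁) z * vf u h₂ j z := by
    intro j
    have e1 := integral_dz ((hs j).of_le one_le_infty) (hcj j) j
    have e2 : (fun z => dz j (fun z => cx h₁ z * vf u h₂ j z) z) =
        fun z => dz j (cx h₁) z * vf u h₂ j z + cx h₁ z * dz j (vf u h₂ j) z := by
      funext z
      exact dz_mul j ((contDiff_cx h1).differentiable (by simp) z) ((hv j).differentiable (by simp) z)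
    rw [e2, integral_add (i2 j) (i3 j)] at e1
    linear_combination e1
  have eL : (fun z => (h₁ z : ℂ) * Lc u h₂ z) = fun z => ∑ j, cx h₁ z * dz j (vf u h₂ j) z := by
    funext z
    rw [← div_vf hu h2 z, Finset.mul_sum]; rfl
  have eG : (fun z => Gc u h₁ h₂ z) = fun z => ∑ j, dz j (cx h₁) z * vf u h₂ j z := by
    funext z
    unfold Gc vf
    refine Finset.sum_congr rfl fun j _ => ?_
    rw [Finset.mul_sum]
    exact Finset.sum_congr rfl fun k _ => by ring
  rw [eL, eG]
  refine ⟨integrable_finsetSum _ fun j _ => i3 j, integrable_finsetSum _ fun j _ => i2 j, ?_⟩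
  rw [integral_finsetSum _ fun j _ => i3 j, integral_finsetSum _ fun j _ => i2 j,
    ← Finset.sum_neg_distrib]
  exact Finset.sum_congr rfl fun j _ => key j

theorem re_integral {f : V n → ℂ} (hf : Integrable f) : ∫ z, (f z).re = (∫ z, f z).re :=
  integral_re hf

/-- (11.2), real form -/
theorem ibp_real {u h₁ h₂ : V n → ℝ} (hu : ContDiff ℝ (⊤ : ℕ∞) u)
    (h1 : ContDiff ℝ (⊤ : ℕ∞) h₁) (h2 : ContDiff ℝ (⊤ : ℕ∞) h₂)
    (hc : HasCompactSupport h₁ ∨ HasCompactSupport h₂) :
    ∫ z, h₁ z * Lop u h₂ z = - ∫ z, Gop u h₁ h₂ z := by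
  obtain ⟨i1, i2, h⟩ := ibp_complex hu h1 h2 hc
  have e1 : ∫ z, h₁ z * Lop u h₂ z = (∫ z, (h₁ z : ℂ) * Lc u h₂ z).re := by
    rw [← re_integral i1]
    refine integral_congr_ae (Eventually.of_forall fun z => ?_)
    show _ = ((h₁ z : ℂ) * Lc u h₂ z).re
    simp [Lop]
  have e2 : ∫ z, Gop u h₁ h₂ z = (∫ z, Gc u h₁ h₂ z).re := by
    rw [← re_integral i2]; rfl
  rw [e1, e2, h]; simp

theorem cof_conj {H : Mat n} (hH : H.IsHermitian) (j k : Fin n) :
    (starRingEnd ℂ) (cof H j k) = cof H k j := by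
  rw [cof_eq_adjugate, cof_eq_adjugate]
  have h1 : (H.adjugate).IsHermitian := hH.adjugate
  exact h1.apply j k

theorem Gop_symm {u h₁ h₂ : V n → ℝ} (hu : ContDiff ℝ 2 u) {z : V n}
    (h1 : DifferentiableAt ℝ h₁ z) (h2 : DifferentiableAt ℝ h₂ z) :
    Gop u h₁ h₂ z = Gop u h₂ h₁ z := by
  have h : (starRingEnd ℂ) (Gc u h₁ h₂ z) = Gc u h₂ h₁ z := by
    unfold Gc
    simp only [map_sum, map_mul]
    rw [Finset.sum_comm]
    refine Finset.sum_congr rfl fun k _ => Finset.sum_congr rfl fun j _ => ?_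
    rw [cof_conj (hess_isHermitian hu z), db_cx k h2, db_cx j h1, Complex.conj_conj]
    ring
  unfold Gop
  rw [← h]; simp

/-- (11.2): symmetry -/
theorem ibp_symm {u h₁ h₂ : V n → ℝ} (hu : ContDiff ℝ (⊤ : ℕ∞) u)
    (h1 : ContDiff ℝ (⊤ : ℕ∞) h₁) (h2 : ContDiff ℝ (⊤ : ℕ∞) h₂)
    (hc : HasCompactSupport h₁ ∨ HasCompactSupport h₂) :
    ∫ z, h₁ z * Lop u h₂ z = ∫ z, h₂ z * Lop u h₁ z := by
  rw [ibp_real hu h1 h2 hc, ibp_real hu h2 h1 hc.symm]
  congr 1
  refine integral_congr_ae (Eventually.of_forall fun z => ?_)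
  exact Gop_symm (hu.of_le two_le_infty) (h1.differentiable (by simp) z)
    (h2.differentiable (by simp) z)

open scoped MatrixOrder Matrix.Norms.L2Operator in
theorem adjugate_posSemidef {H : Mat n} (hH : H.PosSemidef) : H.adjugate.PosSemidef := by
  obtain ⟨B, hB⟩ := CStarAlgebra.nonneg_iff_eq_star_mul_self.mp hH.nonneg
  rw [hB, Matrix.adjugate_mul_distrib, Matrix.star_eq_conjTranspose,
    ← Matrix.adjugate_conjTranspose]
  exact Matrix.posSemidef_self_mul_conjTranspose _

theorem Gc_self_nonneg {u h : V n → ℝ} (hu : ContDiff ℝ 2 u) {z : V n} (hp : ∀ v, 0 ≤ lev u z v)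
    (hh : DifferentiableAt ℝ h z) : 0 ≤ Gc u h h z := by
  have h1 := adjugate_posSemidef (hess_posSemidef hu hp)
  have h2 := h1.dotProduct_mulVec_nonneg (fun j => dz j (cx h) z)
  rw [star_dot_mulVec] at h2
  have e1 : Gc u h h z = ∑ j, ∑ k, (hess u z).adjugate j k * (starRingEnd ℂ) (dz j (cx h) z) *
      dz k (cx h) z := by
    unfold Gc
    rw [Finset.sum_comm]
    refine Finset.sum_congr rfl fun k _ => Finset.sum_congr rfl fun j _ => ?_
    rw [cof_eq_adjugate, db_cx k hh]
    ring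
  rw [e1]; exact h2

theorem dz_comp {m : ℝ → ℝ} {h : V n → ℝ} {z : V n} (hm : DifferentiableAt ℝ m (h z))
    (hh : DifferentiableAt ℝ h z) (j : Fin n) :
    dz j (cx (fun y => m (h y))) z = ((deriv m (h z) : ℝ) : ℂ) * dz j (cx h) z := by
  have hd : DifferentiableAt ℝ (fun y => m (h y)) z := hm.comp z hh
  have h1 : ∀ v, fderiv ℝ (fun y => m (h y)) z v = deriv m (h z) * fderiv ℝ h z v := by
    intro v
    have := (hm.hasDerivAt.comp_hasFDerivAt z hh.hasFDerivAt).fderiv
    have h2 : fderiv ℝ (fun y => m (h y)) z = _ := this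
    rw [h2]
    simp
  unfold dz
  rw [fderiv_cx hd, fderiv_cx hd, fderiv_cx hh, fderiv_cx hh, h1, h1]
  push_cast
  ring

/-- (11.2): the sign, for functions smooth on the whole space -/
theorem ibp_sign {u h' : V n → ℝ} {m : ℝ → ℝ} (hu : ContDiff ℝ (⊤ : ℕ∞) u)
    (hh' : ContDiff ℝ (⊤ : ℕ∞) h') (hm : ContDiff ℝ (⊤ : ℕ∞) m) (hmono : Monotone m)
    (hc : HasCompactSupport fun z => m (h' z))
    (hp : ∀ z ∈ tsupport (fun z => m (h' z)), ∀ v, 0 ≤ lev u z v) :
    ∫ z, m (h' z) * Lop u h' z ≤ 0 := by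
  have hs : ContDiff ℝ (⊤ : ℕ∞) fun z => m (h' z) := hm.comp hh'
  rw [ibp_real hu hs hh' (Or.inl hc)]
  rw [neg_nonpos]
  refine integral_nonneg fun z => ?_
  show 0 ≤ Gop u (fun z => m (h' z)) h' z
  have hd := hh'.differentiable (by simp) z
  by_cases hz : z ∈ tsupport (fun z => m (h' z))
  · have h1 : Gc u (fun z => m (h' z)) h' z = ((deriv m (h' z) : ℝ) : ℂ) * Gc u h' h' z := by
      unfold Gc
      rw [Finset.mul_sum]
      refine Finset.sum_congr rfl fun j _ => ?_
      rw [Finset.mul_sum]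
      refine Finset.sum_congr rfl fun k _ => ?_
      rw [dz_comp (hm.differentiable (by simp) _) hd]
      ring
    have h2 := Gc_self_nonneg (hu.of_le two_le_infty) (hp z hz) hd
    unfold Gop
    rw [h1]
    have h3 : 0 ≤ (Gc u h' h' z).re := (Complex.le_def.1 h2).1
    have h4 : 0 ≤ deriv m (h' z) := hmono.deriv_nonneg
    simp only [Complex.mul_re, Complex.ofReal_re, Complex.ofReal_im, zero_mul, sub_zero]
    positivity
  · have h1 : ∀ j, dz j (cx (fun z => m (h' z))) z = 0 := by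
      intro j
      have h2 : (cx (fun z => m (h' z))) =ᶠ[𝓝 z] fun _ => 0 := by
        have h3 := notMem_tsupport_iff_eventuallyEq.1 hz
        filter_upwards [h3] with y hy
        show ((m (h' y) : ℝ) : ℂ) = 0
        have hy2 : m (h' y) = 0 := hy
        rw [hy2]; simp
      unfold dz
      rw [h2.fderiv_eq]
      simp
    unfold Gop Gc
    simp [h1]

end Pool.Agent.Helper5.AM
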