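import Pool.Agent.Helper5.AM.Class

/-!
# Project AM, (11.3)-(11.4): monotonicity of the energy and its limits
-/

set_option autoImplicit false

namespace Pool.Agent.Helper5.AM

open MeasureTheory Set Filter Topology Polynomial
open Pool.Agent.Helper29.AM
open scoped ComplexOrder

variable {n : ℕ} {B : Set (V n)} {r v w : V n → ℝ}

theorem ln_zero (v w : V n → ℝ) : ln v w 0 = v := by funext y; unfold ln; ring

theorem ln_one (v w : V n → ℝ) : ln v w 1 = w := by funext y; unfold ln; ring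

/-- integral over a bounded set of a continuous function that vanishes off `B` -/
theorem integral_eq_setIntegral {f : V n → ℝ} (h : ∀ z, z ∉ B → f z = 0) :
    ∫ z, f z = ∫ z in B, f z :=
  (setIntegral_eq_integral_of_forall_compl_eq_zero h).symm

theorem integrableOn_of_continuous (hBb : Bornology.IsBounded B) {f : V n → ℝ}
    (hf : Continuous f) : IntegrableOn f B :=
  (hf.continuousOn.integrableOn_compact hBb.isCompact_closure).mono_set subset_closure

/-- the first variation is at most `ε` times the mass -/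
theorem variation_le (hBm : MeasurableSet B) (hBb : Bornology.IsBounded B)
    (hr : ContDiff ℝ (⊤ : ℕ∞) r) {u : V n → ℝ} (hu : PP B r u) {f : V n → ℝ} (hf : Continuous f)
    (hf0 : ∀ z, z ∉ B → f z = 0) {ε : ℝ} (h : ∀ z ∈ B, f z ≤ ε) :
    ∫ z, f z * Dm u z ≤ ε * ∫ z in B, Dm r z := by
  rw [integral_eq_setIntegral (B := B) (fun z hz => by rw [hf0 z hz, zero_mul])]
  rw [← hu.mass hBb hr, ← integral_const_mul]
  refine setIntegral_mono_on ?_ ?_ hBm fun z hz => ?_
  · exact integrableOn_of_continuous hBb (hf.mul (continuous_Dm hu.smooth))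
  · exact integrableOn_of_continuous hBb (continuous_const.mul (continuous_Dm hu.smooth))
  · exact mul_le_mul_of_nonneg_right (h z hz) (hu.Dm_nonneg z)

theorem En_le_add (hBm : MeasurableSet B) (hBb : Bornology.IsBounded B) (hr : ContDiff ℝ (⊤ : ℕ∞) r)
    (hv : PP B r v) (hw : PP B r w) {ε : ℝ} (h : ∀ z ∈ B, w z ≤ v z + ε) :
    En r w ≤ En r v + ε * ∫ z in B, Dm r z := by
  have hd := fun t => En_hasDerivAt hr hv.smooth hw.smooth hv.cpt (cpt_sub hv hw) t
  set m₀ := ∫ z in B, Dm r z with hm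
  have hb : ∀ t ∈ Icc (0 : ℝ) 1, (∫ z, (w z - v z) * Dm (ln v w t) z) ≤ ε * m₀ := by
    intro t ht
    refine variation_le hBm hBb hr (hv.ln hw ht) (f := fun z => w z - v z)
      (hw.smooth.continuous.sub hv.smooth.continuous) (fun z hz => ?_) (fun z hz => ?_)
    · show w z - v z = 0
      rw [hv.eq_of_notMem hz, hw.eq_of_notMem hz, sub_self]
    · have := h z hz
      show w z - v z ≤ ε
      linarith
  have h1 : ∀ t ∈ Icc (0:ℝ) 1, HasDerivWithinAt (fun t => En r (ln v w t) - ε * m₀ * t)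
      ((∫ z, (w z - v z) * Dm (ln v w t) z) - ε * m₀) (Icc 0 1) t := by
    intro t _
    have h2 : HasDerivAt (fun t : ℝ => ε * m₀ * t) (ε * m₀) t := by
      simpa using (hasDerivAt_id t).const_mul (ε * m₀)
    exact ((hd t).sub h2).hasDerivWithinAt
  have h3 : AntitoneOn (fun t => En r (ln v w t) - ε * m₀ * t) (Icc (0:ℝ) 1) := by
    refine antitoneOn_of_deriv_nonpos (convex_Icc 0 1)
      (fun t ht => (h1 t ht).continuousWithinAt) ?_ ?_
    · intro t ht
      rw [interior_Icc] at ht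
      exact ((h1 t ⟨ht.1.le, ht.2.le⟩).differentiableWithinAt).mono (by
        rw [interior_Icc]; exact Ioo_subset_Icc_self)
    · intro t ht
      rw [interior_Icc] at ht
      have h4 : HasDerivAt (fun t => En r (ln v w t) - ε * m₀ * t)
          ((∫ z, (w z - v z) * Dm (ln v w t) z) - ε * m₀) t :=
        (h1 t ⟨ht.1.le, ht.2.le⟩).hasDerivAt (Icc_mem_nhds ht.1 ht.2)
      rw [h4.deriv]
      have := hb t ⟨ht.1.le, ht.2.le⟩
      linarith
  have h5 := h3 (left_mem_Icc.2 zero_le_one) (right_mem_Icc.2 zero_le_one) zero_le_one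
  simp only [ln_zero, ln_one] at h5
  linarith

theorem mass_nonneg (hr : Ref r) : 0 ≤ ∫ z in B, Dm r z :=
  integral_nonneg fun z => (hr.pp (B := B)).Dm_nonneg z

theorem En_mono (hBm : MeasurableSet B) (hBb : Bornology.IsBounded B) (hr : ContDiff ℝ (⊤ : ℕ∞) r)
    (hv : PP B r v) (hw : PP B r w) (h : ∀ z ∈ B, w z ≤ v z) : En r w ≤ En r v := by
  have := En_le_add hBm hBb hr hv hw (ε := 0) (fun z hz => by have := h z hz; linarith)
  linarith

theorem En_lower (hBm : MeasurableSet B) (hBb : Bornology.IsBounded B) (hr : Ref r)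
    (hv : PP B r v) {C : ℝ} (h : ∀ z ∈ B, r z - C ≤ v z) : -(C * ∫ z in B, Dm r z) ≤ En r v := by
  have := En_le_add hBm hBb hr.smooth hv (hr.pp (B := B)) (ε := C)
    (fun z hz => by have := h z hz; linarith)
  rw [En_self] at this
  linarith

/-! ### Dini -/

theorem dini (hBb : Bornology.IsBounded B) {w : ℕ → V n → ℝ} (hw : ∀ k, PP B r (w k))
    (hanti : Antitone w) (hv : PP B r v) {f : V n → ℝ}
    (hf : ∀ z ∈ B, Tendsto (fun k => w k z) atTop (𝓝 (f z))) (hle : ∀ z ∈ B, f z ≤ v z)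
    {ε : ℝ} (hε : 0 < ε) : ∃ N, ∀ k ≥ N, ∀ z, w k z ≤ v z + ε := by
  have hK : IsCompact (closure B) := hBb.isCompact_closure
  let U : ℕ → Set (V n) := fun k => {z | w k z < v z + ε}
  have hU : ∀ k, IsOpen (U k) := fun k =>
    isOpen_lt (hw k).smooth.continuous (hv.smooth.continuous.add continuous_const)
  have hmono : Monotone U := by
    intro k l hkl z hz
    exact lt_of_le_of_lt (hanti hkl z) hz
  have hcov : closure B ⊆ ⋃ k, U k := by
    intro z _
    by_cases hz : z ∈ B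
    · have h1 : ∀ᶠ k in atTop, w k z < v z + ε :=
        (hf z hz).eventually_lt_const (by have := hle z hz; linarith)
      obtain ⟨k, hk⟩ := h1.exists
      exact mem_iUnion.2 ⟨k, hk⟩
    · refine mem_iUnion.2 ⟨0, ?_⟩
      show w 0 z < v z + ε
      rw [(hw 0).eq_of_notMem hz, hv.eq_of_notMem hz]; linarith
  obtain ⟨N, hN⟩ := hK.elim_directed_cover U hU hcov (directed_of_isDirected_le hmono)
  refine ⟨N, fun k hk z => ?_⟩
  by_cases hz : z ∈ B
  · exact (hmono hk (hN (subset_closure hz))).le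
  · rw [(hw k).eq_of_notMem hz, hv.eq_of_notMem hz]; linarith

/-- the energy of a decreasing limit -/
noncomputable def EL (B : Set (V n)) (r f : V n → ℝ) : ℝ :=
  sInf {x | ∃ v, PP B r v ∧ (∀ z ∈ B, f z ≤ v z) ∧ x = En r v}

theorem EL_le (hBm : MeasurableSet B) (hBb : Bornology.IsBounded B) (hr : Ref r) {f : V n → ℝ}
    {C : ℝ} (hC : ∀ z ∈ B, r z - C ≤ f z) (hv : PP B r v) (h : ∀ z ∈ B, f z ≤ v z) :
    EL B r f ≤ En r v := by
  refine csInf_le ⟨-(C * ∫ z in B, Dm r z), ?_⟩ ⟨v, hv, h, rfl⟩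
  rintro x ⟨u, hu, hfu, rfl⟩
  exact En_lower hBm hBb hr hu fun z hz => (hC z hz).trans (hfu z hz)

/-- (11.4): the energies of a decreasing sequence converge to a number depending only on the limit -/
theorem tendsto_EL (hBm : MeasurableSet B) (hBb : Bornology.IsBounded B) (hr : Ref r)
    {w : ℕ → V n → ℝ} (hw : ∀ k, PP B r (w k)) (hanti : Antitone w) {f : V n → ℝ}
    (hf : ∀ z ∈ B, Tendsto (fun k => w k z) atTop (𝓝 (f z))) {C : ℝ}
    (hC : ∀ z ∈ B, r z - C ≤ f z) : Tendsto (fun k => En r (w k)) atTop (𝓝 (EL B r f)) := by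
  have hfle : ∀ k, ∀ z ∈ B, f z ≤ w k z := fun k z hz =>
    Antitone.le_of_tendsto (f := fun k => w k z) (fun i j hij => hanti hij z) (hf z hz) k
  have hm0 := mass_nonneg (B := B) hr
  rw [Metric.tendsto_atTop]
  intro ε hε
  have hne : {x | ∃ v, PP B r v ∧ (∀ z ∈ B, f z ≤ v z) ∧ x = En r v}.Nonempty :=
    ⟨_, w 0, hw 0, hfle 0, rfl⟩
  obtain ⟨x, ⟨u, hu, hfu, rfl⟩, hx⟩ := exists_lt_of_csInf_lt hne
    (show sInf {x | ∃ v, PP B r v ∧ (∀ z ∈ B, f z ≤ v z) ∧ x = En r v} < EL B r f + ε / 2 by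
      show EL B r f < _; linarith)
  set m₀ := ∫ z in B, Dm r z with hm
  obtain ⟨N, hN⟩ := dini hBb hw hanti hu hf hfu (ε := ε / (4 * (m₀ + 1))) (by positivity)
  refine ⟨N, fun k hk => ?_⟩
  have h1 := En_le_add hBm hBb hr.smooth hu (hw k) fun z _ => hN k hk z
  have h2 := EL_le hBm hBb hr hC (hw k) (hfle k)
  have h3 : ε / (4 * (m₀ + 1)) * m₀ ≤ ε / 4 := by
    have h4 : m₀ / (m₀ + 1) ≤ 1 := (div_le_one (by linarith)).2 (by linarith)
    have h5 : ε / (4 * (m₀ + 1)) * m₀ = ε / 4 * (m₀ / (m₀ + 1)) := by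
      field_simp
    rw [h5]
    exact mul_le_of_le_one_right (by linarith) h4
  rw [Real.dist_eq, abs_of_nonneg (by linarith)]
  have h6 : En r (w k) ≤ En r u + ε / 4 := by
    rw [← hm] at h1; linarith
  linarith

end Pool.Agent.Helper5.AM
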