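import Pool.Agent.Helper5.AM.Ibp2

/-!
# Project AM: polynomial dependence of the Monge-Ampere density along lines, Lagrange interpolation
-/

set_option autoImplicit false

namespace Pool.Agent.Helper5.AM

open MeasureTheory Set Filter Topology Polynomial
open Pool.Agent.Helper29.AM
open scoped ComplexOrder

variable {n : ℕ}

/-! ### Matrices -/

/-- real part of the determinant -/
noncomputable def dre (M : Mat n) : ℝ := M.det.re

/-- real part of `∑ Cof(M)_{jk} K_{jk}` -/
noncomputable def Lm (M K : Mat n) : ℝ := (∑ j, ∑ k, cof M j k * K j k).re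

theorem Lop_eq_Lm (u h : V n → ℝ) (z : V n) : Lop u h z = Lm (hess u z) (hess h z) := rfl

theorem Lm_add (M K K' : Mat n) : Lm M (K + K') = Lm M K + Lm M K' := by
  unfold Lm
  simp only [Matrix.add_apply, mul_add, Finset.sum_add_distrib, Complex.add_re]

theorem Lm_smul (M K : Mat n) (c : ℝ) : Lm M (c • K) = c * Lm M K := by
  unfold Lm
  have : ∑ j, ∑ k, cof M j k * (c • K) j k = (c : ℂ) * ∑ j, ∑ k, cof M j k * K j k := by
    rw [Finset.mul_sum]
    refine Finset.sum_congr rfl fun j _ => ?_
    rw [Finset.mul_sum]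
    refine Finset.sum_congr rfl fun k _ => ?_
    rw [Matrix.smul_apply, Complex.real_smul]; ring
  rw [this]; simp

theorem hasDerivAt_dre (M K : Mat n) (t : ℝ) :
    HasDerivAt (fun t : ℝ => dre (M + t • K)) (Lm (M + t • K) K) t := by
  have hA : ∀ j k, DifferentiableAt ℝ (fun s : ℝ => (M + s • K) j k) t := by
    intro j k
    simp only [Matrix.add_apply, Matrix.smul_apply]
    fun_prop
  have h1 : HasFDerivAt (fun s : ℝ => (M + s • K).det) _ t := (hasFDerivAt_det hA).1.hasFDerivAt
  have h2 := h1.hasDerivAt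
  have h3 : fderiv ℝ (fun s : ℝ => (M + s • K).det) t 1 =
      ∑ j, ∑ k, cof (M + t • K) j k * K j k := by
    rw [fderiv_det hA]
    refine Finset.sum_congr rfl fun j _ => Finset.sum_congr rfl fun k _ => ?_
    have h4 : HasDerivAt (fun s : ℝ => (M + s • K) j k) (K j k) t := by
      have h5 : HasDerivAt (fun s : ℝ => M j k + s • K j k) ((1 : ℝ) • K j k) t :=
        ((hasDerivAt_id t).smul_const (K j k)).const_add (M j k)
      simpa using h5
    have h6 : fderiv ℝ (fun s : ℝ => (M + s • K) j k) t 1 = K j k := by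
      rw [fderiv_apply_one_eq_deriv]; exact h4.deriv
    rw [h6]; ring
  rw [h3] at h2
  exact (Complex.reCLM.hasFDerivAt (x := (M + t • K).det)).comp_hasDerivAt t h2

theorem exists_poly (M K : Mat n) :
    ∃ p : ℝ[X], p.natDegree ≤ n ∧ ∀ t : ℝ, dre (M + t • K) = p.eval t := by
  set P : ℂ[X] := ((X : ℂ[X]) • K.map C + M.map C).det with hP
  have hdeg : P.natDegree ≤ n := by
    have := Polynomial.natDegree_det_X_add_C_le K M
    simpa using this
  have hev : ∀ t : ℂ, P.eval t = (M + t • K).det := by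
    intro t
    rw [hP, ← Polynomial.coe_evalRingHom, RingHom.map_det]
    congr 1
    ext i j
    simp only [RingHom.mapMatrix_apply, Matrix.map_apply, Matrix.add_apply, Matrix.smul_apply,
      smul_eq_mul, map_add, Polynomial.coe_evalRingHom, Polynomial.eval_mul, Polynomial.eval_X,
      Polynomial.eval_C]
    ring
  refine ⟨∑ i ∈ Finset.range (n + 1), C ((P.coeff i).re) * X ^ i, ?_, fun t => ?_⟩
  · refine Polynomial.natDegree_sum_le_of_forall_le _ _ fun i hi => ?_
    exact (Polynomial.natDegree_C_mul_X_pow_le _ _).trans (Nat.lt_succ_iff.1 (Finset.mem_range.1 hi))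
  · have h1 : M + t • K = M + (t : ℂ) • K := by
      ext i j
      simp
    unfold dre
    rw [h1, ← hev, Polynomial.eval_eq_sum_range' (Nat.lt_succ_of_le hdeg) (t : ℂ)]
    rw [Polynomial.eval_finsetSum, Complex.re_sum]
    refine Finset.sum_congr rfl fun i _ => ?_
    rw [Polynomial.eval_mul, Polynomial.eval_C, Polynomial.eval_pow, Polynomial.eval_X]
    rw [← Complex.ofReal_pow, Complex.re_mul_ofReal]

/-! ### Interpolation -/

/-- the nodes `i / N` -/
noncomputable def nd (N i : ℕ) : ℝ := (i : ℝ) / N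

/-- Lagrange basis for the nodes `i / N`, `i < N` -/
noncomputable def ell (N i : ℕ) : ℝ[X] := Lagrange.basis (Finset.range N) (nd N) i

theorem nd_mem {N i : ℕ} (hi : i ∈ Finset.range N) : nd N i ∈ Icc (0 : ℝ) 1 := by
  have h := Finset.mem_range.1 hi
  unfold nd
  constructor
  · positivity
  · rw [div_le_one (by exact_mod_cast (Nat.zero_lt_of_lt h))]
    exact_mod_cast h.le

theorem nd_inj (N : ℕ) : Set.InjOn (nd N) (Finset.range N) := by
  intro i hi j _ h
  have h0 : (0 : ℝ) < N := by
    have := Finset.mem_range.1 (Finset.mem_coe.1 hi)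
    exact_mod_cast (Nat.zero_lt_of_lt this)
  unfold nd at h
  rw [div_left_inj' h0.ne'] at h
  exact_mod_cast h

/-- `f` is a polynomial function of degree `< N` -/
def IsPol (N : ℕ) (f : ℝ → ℝ) : Prop := ∃ p : ℝ[X], p.natDegree < N ∧ ∀ t, f t = p.eval t

theorem interp_poly {N : ℕ} {p : ℝ[X]} (hp : p.natDegree < N) :
    p = ∑ i ∈ Finset.range N, C (p.eval (nd N i)) * ell N i := by
  have h1 : p.degree < (Finset.range N).card := by
    rw [Finset.card_range]
    exact lt_of_le_of_lt Polynomial.degree_le_natDegree (by exact_mod_cast hp)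
  have h2 := Lagrange.eq_interpolate (nd_inj N) h1
  rw [Lagrange.interpolate_apply] at h2
  exact h2

/-- values of a polynomial function of degree `< N` by its values at the nodes -/
theorem IsPol.interp {N : ℕ} {f : ℝ → ℝ} (hf : IsPol N f) (t : ℝ) :
    f t = ∑ i ∈ Finset.range N, f (nd N i) * (ell N i).eval t := by
  obtain ⟨p, hp, h⟩ := hf
  rw [h t]
  conv_lhs => rw [interp_poly hp]
  rw [Polynomial.eval_finsetSum]
  refine Finset.sum_congr rfl fun i _ => ?_
  rw [Polynomial.eval_mul, Polynomial.eval_C, h]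

/-- derivatives of a polynomial function of degree `< N` by its values at the nodes -/
theorem IsPol.hasDerivAt {N : ℕ} {f : ℝ → ℝ} (hf : IsPol N f) (t : ℝ) :
    HasDerivAt f (∑ i ∈ Finset.range N, f (nd N i) * (derivative (ell N i)).eval t) t := by
  have h : f = fun t => ∑ i ∈ Finset.range N, f (nd N i) * (ell N i).eval t := by
    funext t; exact hf.interp t
  have h2 : HasDerivAt (fun t => ∑ i ∈ Finset.range N, f (nd N i) * (ell N i).eval t)
      (∑ i ∈ Finset.range N, f (nd N i) * (derivative (ell N i)).eval t) t :=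
    HasDerivAt.fun_sum fun i _ => ((ell N i).hasDerivAt t).const_mul _
  rw [← h] at h2
  exact h2

theorem isPol_of_interp {N : ℕ} (hN : 0 < N) {f : ℝ → ℝ} (c : ℕ → ℝ)
    (h : ∀ t, f t = ∑ i ∈ Finset.range N, c i * (ell N i).eval t) : IsPol N f := by
  refine ⟨∑ i ∈ Finset.range N, C (c i) * ell N i, ?_, fun t => ?_⟩
  · have h1 : ∀ i ∈ Finset.range N, (C (c i) * ell N i).natDegree ≤ N - 1 := by
      intro i hi
      refine (Polynomial.natDegree_C_mul_le _ _).trans ?_
      unfold ell
      rw [Lagrange.natDegree_basis (nd_inj N) hi, Finset.card_range]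
    have h2 := Polynomial.natDegree_sum_le_of_forall_le (Finset.range N) (fun i => C (c i) * ell N i) h1
    omega
  · rw [h t, Polynomial.eval_finsetSum]
    refine Finset.sum_congr rfl fun i _ => ?_
    rw [Polynomial.eval_mul, Polynomial.eval_C]

theorem isPol_dre (M K : Mat n) : IsPol (n + 1) (fun t : ℝ => dre (M + t • K)) := by
  obtain ⟨p, hp, h⟩ := exists_poly M K
  exact ⟨p, Nat.lt_succ_of_le hp, h⟩

/-- quadrature weights for polynomials of degree `< N` on `[0, 1]` -/
noncomputable def wt (N i : ℕ) : ℝ := ∫ s in (0 : ℝ)..1, (ell N i).eval s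

/-- quadrature is exact -/
theorem quadrature {N : ℕ} {f : ℝ → ℝ} (hf : IsPol N f) :
    ∫ s in (0 : ℝ)..1, f s = ∑ i ∈ Finset.range N, wt N i * f (nd N i) := by
  have h : f = fun t => ∑ i ∈ Finset.range N, f (nd N i) * (ell N i).eval t := by
    funext t; exact hf.interp t
  conv_lhs => rw [h]
  rw [intervalIntegral.integral_finsetSum]
  · refine Finset.sum_congr rfl fun i _ => ?_
    rw [intervalIntegral.integral_const_mul]
    unfold wt; ring
  · intro i _
    exact ((ell N i).continuous.intervalIntegrable _ _).const_mul _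

theorem IsPol.continuous {N : ℕ} {f : ℝ → ℝ} (hf : IsPol N f) : Continuous f := by
  obtain ⟨p, _, h⟩ := hf
  have : f = fun t => p.eval t := funext h
  rw [this]; exact p.continuous

/-- if `f` is polynomial of degree `≤ N` with derivative `g` of degree `< N` -/
theorem quadrature_deriv {N : ℕ} {f g : ℝ → ℝ} (hg : IsPol N g) (h : ∀ s, HasDerivAt f (g s) s) :
    ∑ i ∈ Finset.range N, wt N i * g (nd N i) = f 1 - f 0 := by
  rw [← quadrature hg]
  exact intervalIntegral.integral_eq_sub_of_hasDerivAt (fun s _ => h s)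
    (hg.continuous.intervalIntegrable _ _)

theorem IsPol.mono {N N' : ℕ} (h : N ≤ N') {f : ℝ → ℝ} (hf : IsPol N f) : IsPol N' f := by
  obtain ⟨p, hp, h'⟩ := hf
  exact ⟨p, lt_of_lt_of_le hp h, h'⟩

theorem IsPol.add {N : ℕ} {f g : ℝ → ℝ} (hf : IsPol N f) (hg : IsPol N g) :
    IsPol N fun t => f t + g t := by
  obtain ⟨p, hp, h⟩ := hf
  obtain ⟨q, hq, h'⟩ := hg
  refine ⟨p + q, lt_of_le_of_lt (Polynomial.natDegree_add_le _ _) (max_lt hp hq), fun t => ?_⟩
  show f t + g t = _
  rw [Polynomial.eval_add, h, h']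

theorem IsPol.const_mul {N : ℕ} {f : ℝ → ℝ} (hf : IsPol N f) (c : ℝ) :
    IsPol N fun t => c * f t := by
  obtain ⟨p, hp, h⟩ := hf
  refine ⟨C c * p, lt_of_le_of_lt (Polynomial.natDegree_C_mul_le _ _) hp, fun t => ?_⟩
  show c * f t = _
  rw [Polynomial.eval_mul, Polynomial.eval_C, h]

theorem IsPol.sum {N : ℕ} (hN : 0 < N) {ι : Type*} (s : Finset ι) {f : ι → ℝ → ℝ}
    (hf : ∀ i ∈ s, IsPol N (f i)) : IsPol N fun t => ∑ i ∈ s, f i t := by
  classical
  induction s using Finset.induction_on with
  | empty => exact ⟨0, by simpa using hN, by simp⟩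
  | insert a s ha ih =>
    simp only [Finset.sum_insert ha]
    exact (hf a (Finset.mem_insert_self _ _)).add (ih fun i hi => hf i (Finset.mem_insert_of_mem hi))

theorem IsPol.id_mul {N : ℕ} {f : ℝ → ℝ} (hf : IsPol N f) : IsPol (N + 1) fun t => t * f t := by
  obtain ⟨p, hp, h⟩ := hf
  refine ⟨X * p, ?_, fun t => ?_⟩
  · refine lt_of_le_of_lt (Polynomial.natDegree_mul_le) ?_
    have := Polynomial.natDegree_X_le (R := ℝ)
    omega
  · show t * f t = _
    rw [Polynomial.eval_mul, Polynomial.eval_X, h]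

theorem isPol_const {N : ℕ} (hN : 0 < N) (c : ℝ) : IsPol N fun _ => c :=
  ⟨C c, by simpa using hN, by simp⟩

end Pool.Agent.Helper5.AM
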