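import Pool.Agent.Helper5.AM.Weights

/-!
# Project AM, (11.5): the limit measure and the weights
-/

set_option autoImplicit false

namespace Pool.Agent.Helper5.AM

open MeasureTheory Set Filter Topology Polynomial
open Pool.Agent.Helper29.AM
open scoped ComplexOrder

variable {n : ℕ} {B : Set (V n)} {r : V n → ℝ}

/-- smooth approximation of continuous functions with compact support, in a fixed ball -/
theorem exists_smooth_approx {χ : V n → ℝ} (hχ : Continuous χ) (hc : HasCompactSupport χ) :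
    ∃ R : ℝ, ∀ R' ≥ R, ∀ δ > 0, ∃ ψ : V n → ℝ, ContDiff ℝ (⊤ : ℕ∞) ψ ∧ HasCompactSupport ψ ∧
      (∀ z, |χ z - ψ z| ≤ δ) ∧ ∀ z, z ∉ Metric.ball (0 : V n) R' → χ z - ψ z = 0 := by
  obtain ⟨R, hR⟩ := hc.isCompact.isBounded.subset_ball (0 : V n)
  refine ⟨max R 1 + 2, fun R' hR' δ hδ => ?_⟩
  have hR0 : 0 < max R 1 := lt_of_lt_of_le one_pos (le_max_right _ _)
  let θ : ContDiffBump (0 : V n) := ⟨max R 1, max R 1 + 1, hR0, by linarith⟩
  have hu : UniformContinuous χ := hc.uniformContinuous_of_continuous hχ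
  obtain ⟨g, hg, hgd⟩ := hu.exists_contDiff_dist_le hδ
  have hθ1 : ∀ z ∈ tsupport χ, θ z = 1 := fun z hz =>
    θ.one_of_mem_closedBall (Metric.ball_subset_closedBall
      (Metric.ball_subset_ball (le_max_left _ _) (hR hz)))
  have hχθ : ∀ z, χ z = θ z * χ z := by
    intro z
    by_cases hz : z ∈ tsupport χ
    · rw [hθ1 z hz, one_mul]
    · rw [image_eq_zero_of_notMem_tsupport hz, mul_zero]
  refine ⟨fun z => θ z * g z, θ.contDiff.mul hg, θ.hasCompactSupport.mul_right, fun z => ?_,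
    fun z hz => ?_⟩
  · rw [hχθ z, ← mul_sub, abs_mul]
    have h1 : |θ z| ≤ 1 := by rw [abs_of_nonneg θ.nonneg]; exact θ.le_one
    have h2 : |χ z - g z| ≤ δ := by
      have := hgd z
      rw [dist_comm, Real.dist_eq] at this
      exact this.le
    calc |θ z| * |χ z - g z| ≤ 1 * δ := mul_le_mul h1 h2 (abs_nonneg _) zero_le_one
      _ = δ := one_mul _
  · have h1 : θ z = 0 := by
      apply θ.zero_of_le_dist
      show max R 1 + 1 ≤ dist z 0
      have h2 : ¬ dist z 0 < R' := hz
      linarith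
    show χ z - θ z * g z = 0
    rw [hχθ z, h1]; simp

theorem abs_variation_le (hBm : MeasurableSet B) (hBb : Bornology.IsBounded B)
    (hr : ContDiff ℝ (⊤ : ℕ∞) r) {u : V n → ℝ} (hu : PP B r u) {f : V n → ℝ} (hf : Continuous f)
    (hf0 : ∀ z, z ∉ B → f z = 0) {ε : ℝ} (h : ∀ z, |f z| ≤ ε) :
    |∫ z, f z * Dm u z| ≤ ε * ∫ z in B, Dm r z := by
  rw [abs_le]
  constructor
  · have h1 := variation_le hBm hBb hr hu hf.neg (ε := ε) (fun z hz => by simp [hf0 z hz])
      (fun z _ => (neg_le_abs (f z)).trans (h z))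
    have h2 : ∫ z, (-f) z * Dm u z = -∫ z, f z * Dm u z := by
      rw [← integral_neg]
      refine integral_congr_ae (Eventually.of_forall fun z => ?_)
      show (-f z) * Dm u z = -(f z * Dm u z)
      ring
    have h3 : ∫ z, (-f) z * Dm u z ≤ ε * ∫ z in B, Dm r z := h1
    rw [h2] at h3
    linarith
  · exact variation_le hBm hBb hr hu hf hf0 (fun z _ => (le_abs_self _).trans (h z))

/-- a family of sequences with common approximate limits has a common limit -/
theorem common_limit {ι : Type*} {S : Set ι} (a : ι → ℕ → ℝ)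
    (h : ∀ η > 0, ∃ L : ℝ, ∀ v ∈ S, ∀ᶠ k in atTop, |a v k - L| ≤ η) :
    ∃ L : ℝ, ∀ v ∈ S, Tendsto (a v) atTop (𝓝 L) := by
  by_cases hS : S.Nonempty
  · obtain ⟨v₀, hv₀⟩ := hS
    have hc : CauchySeq (a v₀) := by
      rw [Metric.cauchySeq_iff']
      intro ε hε
      obtain ⟨L, hL⟩ := h (ε / 4) (by linarith)
      obtain ⟨N, hN⟩ := eventually_atTop.1 (hL v₀ hv₀)
      refine ⟨N, fun k hk => ?_⟩
      rw [Real.dist_eq]
      have h1 := hN k hk
      have h2 := hN N le_rfl
      rw [abs_le] at h1 h2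
      rw [abs_lt]
      constructor <;> linarith [h1.1, h1.2, h2.1, h2.2]
    obtain ⟨L, hL⟩ := cauchySeq_tendsto_of_complete hc
    refine ⟨L, fun v hv => ?_⟩
    rw [Metric.tendsto_atTop]
    intro ε hε
    obtain ⟨M, hM⟩ := h (ε / 4) (by linarith)
    have h1 : |L - M| ≤ ε / 4 := by
      have h2 : Tendsto (fun k => |a v₀ k - M|) atTop (𝓝 |L - M|) := (hL.sub_const M).abs
      exact le_of_tendsto h2 (hM v₀ hv₀)
    obtain ⟨N, hN⟩ := eventually_atTop.1 (hM v hv)
    refine ⟨N, fun k hk => ?_⟩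
    rw [Real.dist_eq]
    have h3 := hN k hk
    rw [abs_le] at h1 h3
    rw [abs_lt]
    constructor <;> linarith [h1.1, h1.2, h3.1, h3.2]
  · exact ⟨0, fun v hv => absurd ⟨v, hv⟩ hS⟩

/-- continuous test functions: convergence, with a limit depending only on the limit function -/
theorem tendsto_cont (hBb : Bornology.IsBounded B) (hr : Ref r) (f : V n → ℝ) {χ : V n → ℝ}
    (hχ : Continuous χ) (hc : HasCompactSupport χ) :
    ∃ L : ℝ, ∀ v : ℕ → V n → ℝ, Dec B r v f →
      Tendsto (fun k => ∫ z, χ z * Dm (v k) z) atTop (𝓝 L) := by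
  obtain ⟨R₀, hR₀⟩ := exists_smooth_approx hχ hc
  obtain ⟨R₁, hR₁, _⟩ := exists_ball hBb (Bornology.isBounded_empty (α := V n))
  set R := max R₀ R₁ with hR
  have hBR : B ⊆ Metric.ball (0 : V n) R := hR₁.trans (Metric.ball_subset_ball (le_max_right _ _))
  set m₀ := ∫ z in Metric.ball (0 : V n) R, Dm r z with hm
  have hm0 : 0 ≤ m₀ := mass_nonneg hr
  have key := common_limit (S := {v : ℕ → V n → ℝ | Dec B r v f})
    (fun v k => ∫ z, χ z * Dm (v k) z) ?_
  · obtain ⟨L, hL⟩ := key
    exact ⟨L, fun v hv => hL v hv⟩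
  intro η hη
  obtain ⟨ψ, hψ, hψc, hψd, hψ0⟩ := hR₀ R (le_max_left _ _) (η / (2 * (m₀ + 1))) (by positivity)
  obtain ⟨L, hL⟩ := tendsto_smooth hBb hr f hψ hψc
  refine ⟨L, fun v hv => ?_⟩
  have h1 := hL v hv
  have h2 : ∀ᶠ k in atTop, |(∫ z, ψ z * Dm (v k) z) - L| ≤ η / 2 := by
    have h3 := (Metric.tendsto_nhds.1 h1) (η / 2) (by linarith)
    filter_upwards [h3] with k hk
    rw [Real.dist_eq] at hk
    exact hk.le
  filter_upwards [h2] with k hk
  have hpp : PP (Metric.ball (0 : V n) R) r (v k) := (hv.pp k).mono hBR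
  have i1 := integrable_mul_Dm hχ hc (hv.pp k).smooth
  have i2 := integrable_mul_Dm hψ.continuous hψc (hv.pp k).smooth
  have h3 : |(∫ z, χ z * Dm (v k) z) - ∫ z, ψ z * Dm (v k) z| ≤ η / 2 := by
    rw [← integral_sub i1 i2]
    have h4 := abs_variation_le Metric.isOpen_ball.measurableSet Metric.isBounded_ball hr.smooth hpp
      (f := fun z => χ z - ψ z) (hχ.sub hψ.continuous) hψ0 hψd
    have h5 : ∫ z, (χ z * Dm (v k) z - ψ z * Dm (v k) z) = ∫ z, (χ z - ψ z) * Dm (v k) z := by
      refine integral_congr_ae (Eventually.of_forall fun z => ?_)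
      show _ = _
      ring
    rw [h5]
    refine h4.trans ?_
    have h6 : η / (2 * (m₀ + 1)) * m₀ = η / 2 * (m₀ / (m₀ + 1)) := by field_simp
    rw [← hm, h6]
    exact mul_le_of_le_one_right (by linarith) ((div_le_one (by linarith)).2 (by linarith))
  rw [abs_le] at hk h3 ⊢
  constructor <;> linarith [hk.1, hk.2, h3.1, h3.2]

open Classical in
/-- the limit functional -/
noncomputable def Lam (hBb : Bornology.IsBounded B) (hr : Ref r) (f : V n → ℝ)
    (χ : CompactlySupportedContinuousMap (V n) ℝ) : ℝ :=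
  (tendsto_cont hBb hr f χ.continuous χ.hasCompactSupport).choose

theorem tendsto_Lam (hBb : Bornology.IsBounded B) (hr : Ref r) {f : V n → ℝ}
    (χ : CompactlySupportedContinuousMap (V n) ℝ) {v : ℕ → V n → ℝ} (hv : Dec B r v f) :
    Tendsto (fun k => ∫ z, χ z * Dm (v k) z) atTop (𝓝 (Lam hBb hr f χ)) :=
  (tendsto_cont hBb hr f χ.continuous χ.hasCompactSupport).choose_spec v hv

/-- (11.5): the limit measure -/
theorem exists_measure (hBb : Bornology.IsBounded B) (hr : Ref r) (f : V n → ℝ) :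
    ∃ m : Measure (V n), m.Regular ∧ ∀ v : ℕ → V n → ℝ, Dec B r v f →
      ∀ χ : V n → ℝ, Continuous χ → HasCompactSupport χ →
        Tendsto (fun k => ∫ z, χ z * Dm (v k) z) atTop (𝓝 (∫ z, χ z ∂m)) := by
  by_cases hex : ∃ v, Dec B r v f
  · obtain ⟨v₀, hv₀⟩ := hex
    let Λ₀ : CompactlySupportedContinuousMap (V n) ℝ →ₗ[ℝ] ℝ :=
      { toFun := Lam hBb hr f
        map_add' := by
          intro χ ψ
          have h1 := tendsto_Lam hBb hr χ hv₀
          have h2 := tendsto_Lam hBb hr ψ hv₀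
          have h3 := tendsto_Lam hBb hr (χ + ψ) hv₀
          refine tendsto_nhds_unique h3 ((h1.add h2).congr fun k => ?_)
          have i1 : Integrable fun z => χ z * Dm (v₀ k) z :=
            integrable_mul_Dm χ.continuous χ.hasCompactSupport (hv₀.pp k).smooth
          have i2 : Integrable fun z => ψ z * Dm (v₀ k) z :=
            integrable_mul_Dm ψ.continuous ψ.hasCompactSupport (hv₀.pp k).smooth
          rw [← integral_add i1 i2]
          refine integral_congr_ae (Eventually.of_forall fun z => ?_)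
          show χ z * Dm (v₀ k) z + ψ z * Dm (v₀ k) z = (χ z + ψ z) * Dm (v₀ k) z
          ring
        map_smul' := by
          intro c χ
          have h1 := tendsto_Lam hBb hr χ hv₀
          have h3 := tendsto_Lam hBb hr (c • χ) hv₀
          refine tendsto_nhds_unique h3 ((h1.const_mul c).congr fun k => ?_)
          rw [← integral_const_mul]
          refine integral_congr_ae (Eventually.of_forall fun z => ?_)
          show c * (χ z * Dm (v₀ k) z) = (c * χ z) * Dm (v₀ k) z
          ring }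
    let Λ : CompactlySupportedContinuousMap (V n) ℝ →ₚ[ℝ] ℝ := PositiveLinearMap.mk₀ Λ₀ (by
      intro χ hχ
      have h1 := tendsto_Lam hBb hr χ hv₀
      refine ge_of_tendsto' h1 fun k => integral_nonneg fun z => ?_
      exact mul_nonneg (hχ z) ((hv₀.pp k).Dm_nonneg z))
    refine ⟨RealRMK.rieszMeasure Λ, inferInstance, fun v hv χ hχ hc => ?_⟩
    let χ' : CompactlySupportedContinuousMap (V n) ℝ := ⟨⟨χ, hχ⟩, hc⟩
    have h1 := RealRMK.integral_rieszMeasure Λ χ'
    have h2 := tendsto_Lam hBb hr χ' hv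
    have h3 : Λ χ' = Lam hBb hr f χ' := rfl
    rw [h3] at h1
    rw [← h1] at h2
    exact h2
  · exact ⟨0, inferInstance, fun v hv => absurd ⟨v, hv⟩ hex⟩

end Pool.Agent.Helper5.AM
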