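import Pool.Agent.Helper5.AM.Mono

/-!
# Project AM, (11.4)-(11.5): joint limits, the limit measure, weights
-/

set_option autoImplicit false

namespace Pool.Agent.Helper5.AM

open MeasureTheory Set Filter Topology Polynomial
open Pool.Agent.Helper29.AM
open scoped ComplexOrder

variable {n : ℕ} {B : Set (V n)} {r : V n → ℝ}

/-- a decreasing sequence in `PP B r` with limit `f` on `B` -/
structure Dec (B : Set (V n)) (r : V n → ℝ) (v : ℕ → V n → ℝ) (f : V n → ℝ) : Prop where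
  pp : ∀ k, PP B r (v k)
  anti : Antitone v
  lim : ∀ z ∈ B, Tendsto (fun k => v k z) atTop (𝓝 (f z))
  low : ∃ C : ℝ, ∀ z ∈ B, r z - C ≤ f z

theorem Dec.le {v : ℕ → V n → ℝ} {f : V n → ℝ} (h : Dec B r v f) (k : ℕ) {z : V n} (hz : z ∈ B) :
    f z ≤ v k z :=
  Antitone.le_of_tendsto (f := fun k => v k z) (fun _ _ hij => h.anti hij z) (h.lim z hz) k

theorem ln_mono {v v' w w' : V n → ℝ} {t : ℝ} (ht : t ∈ Icc (0 : ℝ) 1) {z : V n}
    (h1 : v z ≤ v' z) (h2 : w z ≤ w' z) : ln v w t z ≤ ln v' w' t z := by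
  unfold ln
  have h3 := mul_le_mul_of_nonneg_left h1 (sub_nonneg.2 ht.2)
  have h4 := mul_le_mul_of_nonneg_left h2 ht.1
  nlinarith

theorem tendsto_En_ln (hBm : MeasurableSet B) (hBb : Bornology.IsBounded B) (hr : Ref r)
    {v w : ℕ → V n → ℝ} {f g : V n → ℝ} (hv : Dec B r v f) (hw : Dec B r w g) {t : ℝ}
    (ht : t ∈ Icc (0 : ℝ) 1) :
    Tendsto (fun p : ℕ × ℕ => En r (ln (v p.1) (w p.2) t)) (atTop ×ˢ atTop)
      (𝓝 (EL B r (ln f g t))) := by
  obtain ⟨C₁, hC₁⟩ := hv.low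
  obtain ⟨C₂, hC₂⟩ := hw.low
  have hlow : ∀ z ∈ B, r z - ((1 - t) * C₁ + t * C₂) ≤ ln f g t z := by
    intro z hz
    unfold ln
    have h3 := mul_le_mul_of_nonneg_left (hC₁ z hz) (sub_nonneg.2 ht.2)
    have h4 := mul_le_mul_of_nonneg_left (hC₂ z hz) ht.1
    nlinarith
  have hdiag : Tendsto (fun k => En r (ln (v k) (w k) t)) atTop (𝓝 (EL B r (ln f g t))) := by
    refine tendsto_EL hBm hBb hr (fun k => (hv.pp k).ln (hw.pp k) ht) ?_ (fun z hz => ?_) hlow
    · intro k l hkl z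
      exact ln_mono ht (hv.anti hkl z) (hw.anti hkl z)
    · unfold ln
      exact (hv.lim z hz).add (((hw.lim z hz).sub (hv.lim z hz)).const_mul t)
  rw [Metric.tendsto_nhds]
  intro ε hε
  obtain ⟨N, hN⟩ := (Metric.tendsto_atTop.1 hdiag) ε hε
  have hN' := hN N le_rfl
  have hev : ∀ᶠ p : ℕ × ℕ in atTop ×ˢ atTop, N ≤ p.1 ∧ N ≤ p.2 :=
    (eventually_ge_atTop N).prod_mk (eventually_ge_atTop N)
  filter_upwards [hev] with p hp
  have hP := (hv.pp p.1).ln (hw.pp p.2) ht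
  have h1 : EL B r (ln f g t) ≤ En r (ln (v p.1) (w p.2) t) :=
    EL_le hBm hBb hr hlow hP fun z hz => ln_mono ht (hv.le _ hz) (hw.le _ hz)
  have h2 : En r (ln (v p.1) (w p.2) t) ≤ En r (ln (v N) (w N) t) :=
    En_mono hBm hBb hr.smooth ((hv.pp N).ln (hw.pp N) ht) hP fun z _ =>
      ln_mono ht (hv.anti hp.1 z) (hw.anti hp.2 z)
  rw [Real.dist_eq] at hN' ⊢
  rw [abs_of_nonneg (by linarith)]
  have h3 := le_abs_self (En r (ln (v N) (w N) t) - EL B r (ln f g t))
  linarith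

/-- the limit of `∫ (w_l - v_k) D(v_k)` -/
noncomputable def JJ (B : Set (V n)) (r f g : V n → ℝ) : ℝ :=
  ∑ i ∈ Finset.range (n + 2), EL B r (ln f g (nd (n + 2) i)) * (derivative (ell (n + 2) i)).eval 0

theorem tendsto_JJ (hBm : MeasurableSet B) (hBb : Bornology.IsBounded B) (hr : Ref r)
    {v w : ℕ → V n → ℝ} {f g : V n → ℝ} (hv : Dec B r v f) (hw : Dec B r w g) :
    Tendsto (fun p : ℕ × ℕ => ∫ z, (w p.2 z - v p.1 z) * Dm (v p.1) z) (atTop ×ˢ atTop)
      (𝓝 (JJ B r f g)) := by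
  have h : (fun p : ℕ × ℕ => ∫ z, (w p.2 z - v p.1 z) * Dm (v p.1) z) = fun p =>
      ∑ i ∈ Finset.range (n + 2), En r (ln (v p.1) (w p.2) (nd (n + 2) i)) *
        (derivative (ell (n + 2) i)).eval 0 := by
    funext p
    exact first_variation hr.smooth (hv.pp p.1).smooth (hw.pp p.2).smooth (hv.pp p.1).cpt
      (cpt_sub (hv.pp p.1) (hw.pp p.2))
  rw [h]
  exact tendsto_finsetSum _ fun i hi => (tendsto_En_ln hBm hBb hr hv hw (nd_mem hi)).mul_const _

theorem Ref.dec (hr : Ref r) : Dec B r (fun _ => r) r :=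
  ⟨fun _ => hr.pp, antitone_const, fun _ _ => tendsto_const_nhds, ⟨0, fun z _ => by simp⟩⟩

/-- the limit of `∫ (w_l - r) D(v_k)` -/
noncomputable def JK (B : Set (V n)) (r f g : V n → ℝ) : ℝ := JJ B r f g - JJ B r f r

theorem integrable_mul_Dm {g v : V n → ℝ} (hg : Continuous g) (hc : HasCompactSupport g)
    (hv : ContDiff ℝ (⊤ : ℕ∞) v) : Integrable fun z => g z * Dm v z :=
  (hg.mul (continuous_Dm hv)).integrable_of_hasCompactSupport hc.mul_right

theorem tendsto_JK (hBm : MeasurableSet B) (hBb : Bornology.IsBounded B) (hr : Ref r)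
    {v w : ℕ → V n → ℝ} {f g : V n → ℝ} (hv : Dec B r v f) (hw : Dec B r w g) :
    Tendsto (fun p : ℕ × ℕ => ∫ z, (w p.2 z - r z) * Dm (v p.1) z) (atTop ×ˢ atTop)
      (𝓝 (JK B r f g)) := by
  have h1 := tendsto_JJ hBm hBb hr hv hw
  have h2 := tendsto_JJ hBm hBb hr hv (hr.dec (B := B))
  refine (h1.sub h2).congr fun p => ?_
  have i1 : Integrable fun z => (w p.2 z - v p.1 z) * Dm (v p.1) z :=
    integrable_mul_Dm ((hw.pp p.2).smooth.continuous.sub (hv.pp p.1).smooth.continuous)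
      (cpt_sub (hv.pp p.1) (hw.pp p.2)) (hv.pp p.1).smooth
  have i2 : Integrable fun z => (r z - v p.1 z) * Dm (v p.1) z :=
    integrable_mul_Dm (hr.smooth.continuous.sub (hv.pp p.1).smooth.continuous)
      (cpt_sub (hv.pp p.1) (hr.pp (B := B))) (hv.pp p.1).smooth
  rw [← integral_sub i1 i2]
  refine integral_congr_ae (Eventually.of_forall fun z => ?_)
  show _ = _
  ring

/-! ### Enlarging the domain -/

open Classical in
/-- extension by `r` -/
noncomputable def ext (B : Set (V n)) (r f : V n → ℝ) : V n → ℝ := fun z => if z ∈ B then f z else r z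

theorem Dec.enlarge {v : ℕ → V n → ℝ} {f : V n → ℝ} (h : Dec B r v f) {B' : Set (V n)}
    (hB : B ⊆ B') : Dec B' r v (ext B r f) := by
  refine ⟨fun k => (h.pp k).mono hB, h.anti, fun z _ => ?_, ?_⟩
  · unfold ext
    by_cases hz : z ∈ B
    · simp only [if_pos hz]; exact h.lim z hz
    · simp only [if_neg hz]
      have : (fun k => v k z) = fun _ => r z := by
        funext k; exact (h.pp k).eq_of_notMem hz
      rw [this]; exact tendsto_const_nhds
  · obtain ⟨C, hC⟩ := h.low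
    refine ⟨max C 0, fun z _ => ?_⟩
    unfold ext
    by_cases hz : z ∈ B
    · simp only [if_pos hz]
      have := hC z hz
      have h2 := le_max_left C 0
      linarith
    · simp only [if_neg hz]
      have h2 := le_max_right C 0
      linarith

/-! ### Smooth test functions -/

theorem hess_bound {χ : V n → ℝ} (hχ : ContDiff ℝ (⊤ : ℕ∞) χ) (hc : HasCompactSupport χ)
    (j k : Fin n) : ∃ C : ℝ, ∀ z, ‖hess χ z j k‖ ≤ C := by
  have h1 : Continuous fun z => hess χ z j k := (contDiff_hess hχ j k).continuous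
  have h2 : HasCompactSupport fun z => hess χ z j k := by
    refine HasCompactSupport.intro hc.isCompact fun z hz => ?_
    have h3 : χ =ᶠ[𝓝 z] fun _ => 0 := notMem_tsupport_iff_eventuallyEq.1 hz
    rw [lev_eq_zero_of_const h3]; rfl
  exact h1.bounded_above_of_compact_support h2

theorem lev_bound {χ : V n → ℝ} (hχ : ContDiff ℝ (⊤ : ℕ∞) χ) (hc : HasCompactSupport χ) :
    ∃ C : ℝ, 0 ≤ C ∧ ∀ z w, |lev χ z w| ≤ C * ‖w‖ ^ 2 := by
  choose C hC using hess_bound hχ hc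
  refine ⟨∑ j, ∑ k, |C j k|, Finset.sum_nonneg fun _ _ => Finset.sum_nonneg fun _ _ => abs_nonneg _,
    fun z w => ?_⟩
  rw [← lf_hess]
  unfold lf
  refine (Complex.abs_re_le_norm _).trans ?_
  refine (norm_sum_le _ _).trans ?_
  rw [Finset.sum_mul]
  refine Finset.sum_le_sum fun j _ => ?_
  refine (norm_sum_le _ _).trans ?_
  rw [Finset.sum_mul]
  refine Finset.sum_le_sum fun k _ => ?_
  rw [norm_mul, norm_mul, RCLike.norm_conj]
  have h1 : ‖w j‖ ≤ ‖w‖ := PiLp.norm_apply_le w j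
  have h2 : ‖w k‖ ≤ ‖w‖ := PiLp.norm_apply_le w k
  have h3 : ‖hess χ z j k‖ ≤ |C j k| := (hC j k z).trans (le_abs_self _)
  calc ‖hess χ z j k‖ * ‖w j‖ * ‖w k‖ ≤ |C j k| * ‖w‖ * ‖w‖ := by gcongr
    _ = |C j k| * ‖w‖ ^ 2 := by ring

/-- perturbations of the reference function -/
theorem Ref.perturb (hr : Ref r) {χ : V n → ℝ} (hχ : ContDiff ℝ (⊤ : ℕ∞) χ)
    (hc : HasCompactSupport χ) {B' : Set (V n)} (hs : tsupport χ ⊆ B') :
    ∃ ε : ℝ, 0 < ε ∧ PP B' r (fun z => r z + ε * χ z) := by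
  obtain ⟨c, hc0, hcr⟩ := hr.strict
  obtain ⟨C, hC0, hC⟩ := lev_bound hχ hc
  refine ⟨c / (C + 1), by positivity, ?_⟩
  have e1 : (fun z => r z + c / (C + 1) * χ z - r z) = fun z => c / (C + 1) * χ z := by
    funext z; ring
  refine ⟨hr.smooth.add (contDiff_const.mul hχ), fun z w => ?_, ?_, ?_⟩
  · rw [lev_add_smul (hr.smooth.of_le two_le_infty) (hχ.of_le two_le_infty)]
    have h1 := hcr z w
    have h2 := hC z w
    have h3 : -(C * ‖w‖ ^ 2) ≤ lev χ z w := (abs_le.1 h2).1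
    have h4 : c / (C + 1) * (-(C * ‖w‖ ^ 2)) ≤ c / (C + 1) * lev χ z w :=
      mul_le_mul_of_nonneg_left h3 (by positivity)
    have h5 : c / (C + 1) * (C * ‖w‖ ^ 2) ≤ c * ‖w‖ ^ 2 := by
      have h6 : c / (C + 1) * (C * ‖w‖ ^ 2) = (C / (C + 1)) * (c * ‖w‖ ^ 2) := by
        field_simp
      rw [h6]
      exact mul_le_of_le_one_left (by positivity) ((div_le_one (by linarith)).2 (by linarith))
    have h7 : c / (C + 1) * (-(C * ‖w‖ ^ 2)) = -(c / (C + 1) * (C * ‖w‖ ^ 2)) := by ring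
    linarith
  · rw [e1]; exact hc.mul_left
  · rw [e1]; exact tsupport_mul_subset_right.trans hs

theorem exists_ball {S : Set (V n)} (hS : Bornology.IsBounded S) (hBb : Bornology.IsBounded B) :
    ∃ R : ℝ, S ⊆ Metric.ball (0 : V n) R ∧ B ⊆ Metric.ball (0 : V n) R := by
  obtain ⟨R, hR⟩ := (hS.union hBb).subset_ball (0 : V n)
  exact ⟨R, (subset_union_left).trans hR, (subset_union_right).trans hR⟩

/-- smooth test functions: convergence, with a limit depending only on the limit function -/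
theorem tendsto_smooth (hBb : Bornology.IsBounded B) (hr : Ref r) (f : V n → ℝ) {χ : V n → ℝ}
    (hχ : ContDiff ℝ (⊤ : ℕ∞) χ) (hc : HasCompactSupport χ) :
    ∃ L : ℝ, ∀ v : ℕ → V n → ℝ, Dec B r v f →
      Tendsto (fun k => ∫ z, χ z * Dm (v k) z) atTop (𝓝 L) := by
  obtain ⟨R, hR1, hR2⟩ := exists_ball hc.isCompact.isBounded hBb
  obtain ⟨ε, hε, hpp⟩ := hr.perturb hχ hc hR1
  refine ⟨ε⁻¹ * JK (Metric.ball (0 : V n) R) r (ext B r f) (fun z => r z + ε * χ z), fun v hv => ?_⟩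
  have hv' := hv.enlarge hR2
  have hχb : ∃ C : ℝ, ∀ z, ‖χ z‖ ≤ C := hχ.continuous.bounded_above_of_compact_support hc
  obtain ⟨C, hC⟩ := hχb
  have hw : Dec (Metric.ball (0 : V n) R) r (fun _ => fun z => r z + ε * χ z)
      (fun z => r z + ε * χ z) :=
    ⟨fun _ => hpp, antitone_const, fun _ _ => tendsto_const_nhds, ⟨ε * C, fun z _ => by
      have h1 := neg_le_of_abs_le (hC z)
      have h2 := mul_le_mul_of_nonneg_left h1 hε.le
      linarith⟩⟩
  have h := tendsto_JK Metric.isOpen_ball.measurableSet Metric.isBounded_ball hr hv' hw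
  have h2 : Tendsto (fun k : ℕ => (k, k)) atTop (atTop ×ˢ atTop) :=
    tendsto_id.prodMk tendsto_id
  have h3 := (h.comp h2).const_mul ε⁻¹
  refine h3.congr fun k => ?_
  show ε⁻¹ * ∫ z, (r z + ε * χ z - r z) * Dm (v k) z = _
  rw [← integral_const_mul]
  refine integral_congr_ae (Eventually.of_forall fun z => ?_)
  show ε⁻¹ * ((r z + ε * χ z - r z) * Dm (v k) z) = χ z * Dm (v k) z
  field_simp
  ring

end Pool.Agent.Helper5.AM
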